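import Pool.Agent.Helper20.Mono.GoalsH
import Pool.Agent.Helper20.Mono.BaseL

/-!
# Twisted version: the vector `(1,…,1)` is replaced by a vector `ν` of positive integers

The function is `x^N h(x)` and the differential form is `x^{ν-1} dx`.
-/

namespace Mono

open Finset

variable {n : ℕ}

/-- `ν` as a real vector. -/
def nuR (ν : Fin n → ℕ) : Fin n → ℝ := fun i => (ν i : ℝ)

@[simp] theorem nuR_apply (ν : Fin n → ℕ) (i : Fin n) : nuR ν i = (ν i : ℝ) := rfl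

/-- `σ` is the support of the vector `ν`, with coefficients `c`. -/
def Fan.IsClassW (Φ : Fan n) (ν : Fin n → ℕ) (σ : Finset (Fin n → ℤ)) (c : (Fin n → ℤ) → ℝ) :
    Prop :=
  Φ.IsFace σ ∧ (∀ t ∈ σ, c t ≠ 0) ∧ nuR ν = ∑ t ∈ σ, c t • toR t

/-- The vertices of `σ \ Z` which are alone at height one in some coordinate `i` with `ν i = 1`
that vanishes on `B`. -/
def apexW (ν : Fin n → ℕ) (Z σ B : Finset (Fin n → ℤ)) : Finset (Fin n → ℤ) :=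
  (σ \ Z).filter (fun p => ∃ i, ν i = 1 ∧ p i = 1 ∧ (∀ t ∈ σ, t ≠ p → t i = 0) ∧
    ∀ u ∈ B, u i = 0)

/-- The vanishing property (6.1). -/
def Fan.KillW (Φ : Fan n) (ν : Fin n → ℕ) (Z σ : Finset (Fin n → ℤ)) : Prop :=
  ∀ w : Fin n → ℝ, Φ.Generic w → ∀ B : Finset (Fin n → ℤ), Disjoint B σ →
  ∀ (d : ℕ) (y : MvPolynomial (Fin n → ℤ) ℝ), y.IsHomogeneous d →
    B.card + (apexW ν Z σ B).card + d + σ.card ≤ n →
    Φ.Esum σ w ((∏ u ∈ B, MvPolynomial.X u) * (∏ p ∈ apexW ν Z σ B, MvPolynomial.X p) * y) = 0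

open Classical in
/-- The Denef–Loeser expression for the differential form `x^{ν-1} dx`. -/
noncomputable def ZDLw (ν : Fin n → ℕ) (A : Finset (Fin n → ℤ)) (T : Fan n) : RatFunc ℂ :=
  ∑ φ ∈ cfaces A,
    (if dimF φ = 0 then 1 else RatFunc.X / (RatFunc.X + 1) * (-1) ^ dimF φ) *
      RatFunc.C (nvol φ : ℂ) *
    ∑ δ ∈ T.faces.filter (fun δ => δ.card + dimF φ = n ∧ ∀ a ∈ δ, ∀ v ∈ φ, a ⬝ᵥ v = NA A a),
      RatFunc.C (idx (δ : Set (Fin n → ℤ)) : ℂ) /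
        ∏ a ∈ δ, (RatFunc.C (NA A a : ℂ) * RatFunc.X + RatFunc.C (∑ i, (ν i : ℂ) * (a i : ℂ)))

open Classical in
/-- The twisted Denef–Loeser expression, evaluated at a real number. -/
noncomputable def ZrealW (ν : Fin n → ℕ) (A : Finset (Fin n → ℤ)) (T : Fan n) (s : ℝ) : ℝ :=
  ∑ φ ∈ cfaces A, cDL (dimF φ) s * (nvol φ : ℝ) *
    ∑ δ ∈ T.faces.filter (fun δ => δ.card + dimF φ = n ∧ ∀ a ∈ δ, ∀ v ∈ φ, a ⬝ᵥ v = NA A a),
      (idx (δ : Set (Fin n → ℤ)) : ℝ) /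
        ∏ a ∈ δ, ((NA A a : ℝ) * s + ∑ i, (ν i : ℝ) * (a i : ℝ))

end Mono
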