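import Pool.Agent.Helper36.Mono.ZEval
import Pool.Agent.Helper62.MonoW.Defs

/-! Twisted version of packet H3. -/

namespace Mono

open Finset

variable {n : ℕ}

theorem sum_pos_of_memW {ν : Fin n → ℕ} (hν : ∀ i, 0 < ν i) (T : Fan n) {δ : Finset (Fin n → ℤ)} (hδ : T.IsFace δ)
    {a : Fin n → ℤ} (ha : a ∈ δ) : 0 < ∑ i, (ν i : ℝ) * (a i : ℝ) := by
  have hnn : ∀ i, 0 ≤ a i := T.vert_nonneg a (Fan.IsFace.subset_vert T hδ ha)
  have hne : toR a ≠ 0 := by
    have h1 := Fan.IsFace.indep T hδ
    exact h1.ne_zero (⟨a, ha⟩ : δ)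
  obtain ⟨i, hi⟩ : ∃ i, a i ≠ 0 := by
    by_contra hcon
    push Not at hcon
    exact hne (by funext i; simp [hcon i])
  refine Finset.sum_pos' (fun j _ => mul_nonneg (Nat.cast_nonneg _) (by exact_mod_cast hnn j))
    ⟨i, Finset.mem_univ _, ?_⟩
  have := lt_of_le_of_ne (hnn i) (Ne.symm hi)
  exact mul_pos (by exact_mod_cast hν i) (by exact_mod_cast this)

open H3h in
theorem zEvalW (n : ℕ) (ν : Fin n → ℕ) (hν : ∀ i, 0 < ν i) (A : Finset (Fin n → ℤ)) (T : Fan n)
    (hA : ∀ v ∈ A, ∀ i, 0 ≤ v i) (s : ℝ) (hs : 0 < s) :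
    (ZDLw ν A T).denom.eval (s : ℂ) ≠ 0 ∧
      RatFunc.eval (RingHom.id ℂ) (s : ℂ) (ZDLw ν A T) = ((ZrealW ν A T s : ℝ) : ℂ) := by
  have key : Good (s : ℂ) (ZDLw ν A T) ((ZrealW ν A T s : ℝ) : ℂ) := by
    unfold ZDLw ZrealW
    rw [Complex.ofReal_sum]
    refine good_sum _ _ _ fun φ _ => ?_
    rw [Complex.ofReal_mul, Complex.ofReal_mul]
    refine ((Good.mul ?_ ?_)).mul ?_
    · unfold cDL
      split_ifs with h
      · rw [Complex.ofReal_one]; exact good_one
      · rw [Complex.ofReal_mul, Complex.ofReal_div, Complex.ofReal_pow, Complex.ofReal_neg,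
          Complex.ofReal_add, Complex.ofReal_one]
        refine (good_X.div (good_X.add good_one) ?_).mul (good_neg_one.pow _)
        have : ((s + 1 : ℝ) : ℂ) ≠ 0 := by
          rw [Ne, Complex.ofReal_eq_zero]
          positivity
        simpa using this
    · rw [Complex.ofReal_intCast]
      exact good_C _
    · rw [Complex.ofReal_sum]
      refine good_sum _ _ _ fun δ hδ => ?_
      have hface : T.IsFace δ := (Fan.mem_faces T).1 (Finset.mem_filter.1 hδ).1
      rw [Complex.ofReal_div, Complex.ofReal_prod, Complex.ofReal_natCast]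
      refine (good_C _).div (good_prod _ _ _ fun a ha => ?_) ?_
      · rw [Complex.ofReal_add, Complex.ofReal_mul, Complex.ofReal_intCast, Complex.ofReal_sum]
        refine ((good_C _).mul good_X).add ?_
        refine (good_C _).congr ?_
        exact Finset.sum_congr rfl fun i _ => by
          rw [Complex.ofReal_mul, Complex.ofReal_intCast, Complex.ofReal_natCast]
      · rw [Finset.prod_ne_zero_iff]
        intro a ha
        rw [Ne, Complex.ofReal_eq_zero]
        have h1 : 0 ≤ (NA A a : ℝ) := by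
          exact_mod_cast NA_nonneg A hA a
            (T.vert_nonneg a (Fan.IsFace.subset_vert T hface ha))
        have h2 := sum_pos_of_memW hν T hface ha
        positivity
  exact key

end Mono
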