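import Pool.Agent.Helper62.MonoW.Global

/-!
# Polynomials which are Newton nondegenerate up to finitely many points

Definitions and the main theorem.
-/

namespace Mono

open Finset

variable {n : ℕ}

/-- Data of a point `p` of an exceptional divisor of a toric modification at which the proper
transform of `f` is singular.  In local coordinates at `p` the exceptional divisor is
`{x_z = 0}`, the function is `x_z^N h` and the volume form is `x_z^{ν-1} dx`; the number `κ` is
the Milnor number of the restriction of `h` to the divisor. -/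
structure PointData (n : ℕ) where
  z : Fin n
  N : ℕ
  ν : ℕ
  κ : ℕ
  h : MvPolynomial (Fin n) ℂ

/-- The exponents of the function `x_z^N h`. -/
noncomputable def PointData.A (p : PointData n) : Finset (Fin n → ℤ) :=
  expo (MvPolynomial.X p.z ^ p.N * p.h)

/-- The hypotheses on a point: `N, ν` are positive, `h` vanishes at the point, and the restriction
of `h` to the divisor is convenient. -/
def PointData.Good (p : PointData n) : Prop :=
  0 < p.N ∧ 0 < p.ν ∧ p.h ≠ 0 ∧ p.h.coeff 0 = 0 ∧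
    ∀ k, k ≠ p.z → ∃ a : ℕ, p.h.coeff (Finsupp.single k a) ≠ 0

/-- The Denef–Loeser expression of `f`, corrected at the points `p i`. -/
noncomputable def ZTot {r : ℕ} (f : MvPolynomial (Fin n) ℂ) (p : Fin r → PointData n) (T : Fan n)
    (Tp : Fin r → Fan n) : RatFunc ℂ :=
  ZDL (expo f) T + ∑ i, ((RatFunc.C ((-1) ^ n * ((p i).κ : ℂ)) * RatFunc.X - 1) /
      ((RatFunc.X + 1) * (RatFunc.C ((p i).N : ℂ) * RatFunc.X + RatFunc.C ((p i).ν : ℂ))) +
    ZDLw (LocW.wt (p i).z (p i).ν) (p i).A (Tp i))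

/-- Varchenko's expression of `f`, corrected at the points `p i`. -/
noncomputable def zetaTot {r : ℕ} (f : MvPolynomial (Fin n) ℂ) (p : Fin r → PointData n) :
    RatFunc ℂ :=
  zetaV (expo f) * ∏ i, ((1 - RatFunc.X ^ (p i).N) ^ ((-1) ^ n * ((p i).κ : ℤ)) *
    zetaV (p i).A)

open Classical in
/-- The order of vanishing of `zetaV A` at `exp(2 π i s)`, up to the sign `(-1)^(n-1)`. -/
noncomputable def multV (A : Finset (Fin n → ℤ)) (s : ℂ) : ℤ :=
  (-1) ^ (n - 1) * ∑ φ ∈ (cfaces A).filter (fun φ => dimF φ + 1 = (cs φ).card ∧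
    ∃ j : ℤ, (latDist φ : ℂ) * s = j), (-1) ^ dimF φ * nvol φ

/-- The exponents of `f` at the origin (`none`) and at the points `p i` (`some i`). -/
noncomputable def nodeA {r : ℕ} (f : MvPolynomial (Fin n) ℂ) (p : Fin r → PointData n) :
    Option (Fin r) → Finset (Fin n → ℤ)
  | none => expo f
  | some i => (p i).A

open Classical in
/-- The sum of the numbers `κ` of the points `p i` above `v` (`par i = v`) whose factor
`1 - t^N` vanishes at `exp(2 π i s)`. -/
noncomputable def kapSum {r : ℕ} (p : Fin r → PointData n) (par : Fin r → Option (Fin r))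
    (v : Option (Fin r)) (s : ℂ) : ℤ :=
  ∑ i ∈ univ.filter (fun i => par i = v ∧ ∃ j : ℤ, ((p i).N : ℂ) * s = j), ((p i).κ : ℤ)

namespace LocW

open Fin20

theorem mem_A_iff (p : PointData n) (u : Fin n → ℤ) :
    u ∈ p.A ↔ ∃ d : Fin n →₀ ℕ, p.h.coeff d ≠ 0 ∧
      u = (fun i => (d i : ℤ)) + Pi.single p.z (p.N : ℤ) := by
  unfold PointData.A expo
  rw [Finset.mem_image, MvPolynomial.X_pow_eq_monomial]
  constructor
  · rintro ⟨e, he, rfl⟩
    rw [MvPolynomial.mem_support_iff, MvPolynomial.coeff_monomial_mul'] at he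
    split_ifs at he with hle
    · refine ⟨e - Finsupp.single p.z p.N, by simpa using he, ?_⟩
      funext i
      have h1 := hle i
      by_cases hi : i = p.z
      · subst hi
        simp only [Finsupp.single_eq_same] at h1
        simp only [Pi.add_apply, Pi.single_eq_same, Finsupp.coe_tsub, Pi.sub_apply,
          Finsupp.single_eq_same]
        omega
      · simp [Pi.single_eq_of_ne hi, Finsupp.single_eq_of_ne hi]
    · exact absurd rfl he
  · rintro ⟨d, hd, rfl⟩
    refine ⟨d + Finsupp.single p.z p.N, ?_, ?_⟩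
    · rw [MvPolynomial.mem_support_iff, MvPolynomial.coeff_monomial_mul', if_pos le_add_self]
      simpa using hd
    · funext i
      by_cases hi : i = p.z
      · subst hi; simp
      · simp [Pi.single_eq_of_ne hi, Finsupp.single_eq_of_ne hi]

theorem chart_of_good {p : PointData n} (hp : p.Good) : Chart p.z p.N p.A ∧ p.A.Nonempty := by
  obtain ⟨hN, _, hh, h0, hk⟩ := hp
  refine ⟨⟨hN, ?_, ?_, ?_⟩, ?_⟩
  · intro u hu
    obtain ⟨d, _, rfl⟩ := (mem_A_iff p u).1 hu
    refine ⟨by simp, fun i => ?_⟩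
    by_cases hi : i = p.z
    · subst hi
      simp only [Pi.add_apply, Pi.single_eq_same]
      positivity
    · simp [Pi.single_eq_of_ne hi]
  · intro hu
    obtain ⟨d, hd, he⟩ := (mem_A_iff p _).1 hu
    apply hd
    have : d = 0 := by
      ext i
      have h1 := congrFun he i
      simp only [Pi.add_apply] at h1
      have h2 : (d i : ℤ) = 0 := by omega
      exact_mod_cast h2
    rw [this, h0]
  · intro k hkz
    obtain ⟨a, ha⟩ := hk k hkz
    refine ⟨a, ?_, (mem_A_iff p _).2 ⟨Finsupp.single k a, ha, ?_⟩⟩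
    · have : a ≠ 0 := by
        rintro rfl
        rw [Finsupp.single_zero] at ha
        exact ha h0
      omega
    · funext i
      simp only [Pi.add_apply]
      rw [add_comm]
      congr 1
      by_cases hi : i = k
      · subst hi; simp
      · simp [Pi.single_eq_of_ne hi, Finsupp.single_eq_of_ne hi]
  · obtain ⟨d, hd⟩ := MvPolynomial.ne_zero_iff.1 hh
    exact ⟨_, (mem_A_iff p _).2 ⟨d, hd, rfl⟩⟩

/-- `N s₀` is an integer iff the denominator divides `N`. -/
theorem int_iff {r : ℚ} {s₀ : ℂ} (hs : s₀ = -(r : ℂ)) (N : ℕ) :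
    (∃ j : ℤ, (N : ℂ) * s₀ = j) ↔ r.den ∣ N := by
  rw [hs]
  constructor
  · rintro ⟨j, hj⟩
    have h1 : (N : ℚ) * (-r) = j := by exact_mod_cast hj
    have h2 : (N : ℤ) * r.num = -j * r.den := by
      have h3 : r = r.num / r.den := (Rat.num_div_den r).symm
      have h4 : (r.den : ℚ) ≠ 0 := by exact_mod_cast r.den_nz
      rw [h3] at h1
      field_simp at h1
      have h5 : -((N : ℚ) * r.num) = j * r.den := by
        rw [h1]; ring
      have h6 : -((N : ℤ) * r.num) = j * r.den := by exact_mod_cast h5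
      linarith
    have h3 : (r.den : ℤ) ∣ (N : ℤ) * r.num := ⟨-j, by rw [h2]; ring⟩
    have h4 : IsCoprime (r.den : ℤ) r.num := by
      rw [Int.isCoprime_iff_gcd_eq_one]
      have := r.reduced
      rw [Int.gcd_eq_natAbs]
      simpa [Nat.Coprime, Nat.gcd_comm] using this
    have h5 := h4.dvd_of_dvd_mul_right h3
    exact Int.natCast_dvd_natCast.1 h5
  · rintro ⟨c, hc⟩
    refine ⟨-(c * r.num), ?_⟩
    have h1 : (r : ℂ) * r.den = r.num := by exact_mod_cast Rat.mul_den_eq_num r
    rw [hc]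
    push_cast
    rw [← h1]
    ring

theorem multV_eq {A : Finset (Fin n → ℤ)} {r : ℚ} {s₀ : ℂ} (hs : s₀ = -(r : ℂ)) :
    multV A s₀ = (-1) ^ (n - 1) * EV A r.den := by
  classical
  unfold multV EV
  congr 1
  refine Finset.sum_congr ?_ fun _ _ => rfl
  ext φ
  simp only [mem_filter, int_iff hs]

theorem corr_root {n κ N ν : ℕ} {s : ℂ}
    (h : ((RatFunc.C ((-1) ^ n * (κ : ℂ)) * RatFunc.X - 1) /
      ((RatFunc.X + 1) * (RatFunc.C (N : ℂ) * RatFunc.X + RatFunc.C (ν : ℂ))) :
        RatFunc ℂ).denom.eval s = 0) : s = -1 ∨ (N : ℂ) * s + ν = 0 := by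
  have h1 : ((RatFunc.C ((-1) ^ n * (κ : ℂ)) * RatFunc.X - 1) /
      ((RatFunc.X + 1) * (RatFunc.C (N : ℂ) * RatFunc.X + RatFunc.C (ν : ℂ))) : RatFunc ℂ) =
      algebraMap (Polynomial ℂ) (RatFunc ℂ)
        (Polynomial.C ((-1) ^ n * (κ : ℂ)) * Polynomial.X - 1) /
      algebraMap (Polynomial ℂ) (RatFunc ℂ) ((Polynomial.X + 1) *
        (Polynomial.C (N : ℂ) * Polynomial.X + Polynomial.C (ν : ℂ))) := by
    simp only [map_mul, map_add, map_sub, map_one, RatFunc.algebraMap_X, RatFunc.algebraMap_C]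
  rw [h1] at h
  obtain ⟨c, hc⟩ := RatFunc.denom_div_dvd
    (Polynomial.C ((-1) ^ n * (κ : ℂ)) * Polynomial.X - 1) ((Polynomial.X + 1) *
        (Polynomial.C (N : ℂ) * Polynomial.X + Polynomial.C (ν : ℂ)))
  have h2 := congrArg (Polynomial.eval s) hc
  rw [Polynomial.eval_mul (p := RatFunc.denom _), h, zero_mul] at h2
  simp only [Polynomial.eval_mul, Polynomial.eval_add, Polynomial.eval_X, Polynomial.eval_one,
    Polynomial.eval_C, mul_eq_zero] at h2
  rcases h2 with h2 | h2
  · left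
    exact eq_neg_of_add_eq_zero_left h2
  · exact Or.inr h2

theorem main (hNF : NewtonFan) (hDF : DualFan) (hZ : ZFormula)
    (hE : ZEval) (hP : PoleLemma) (hM : ClassMain) (hFS : FaceSumMult) (hC : CycloLemma)
    (hLT : LinkTri) (hLS : LinkSum) (hMN : MultNonneg)
    (hZW : ZWIdentity) (hNV : NvolSum) (hLD : LowDegree)
    (hVH : VolHeight) (hAM : AlgMain) (hMF : MultFormula) (hPV : PairVanish)
    (hBox : BoxCount) (hS : SpanT) (hSC : StarCoverT)
    {r : ℕ} (f : MvPolynomial (Fin n) ℂ) (p : Fin r → PointData n)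
    (par : Fin r → Option (Fin r)) (hf : f ≠ 0) (h0 : f.coeff 0 = 0)
    (hf2 : ∀ i j : Fin n, i ≠ j → ∃ d : Fin n →₀ ℕ, f.coeff d ≠ 0 ∧
      ∀ l, l ≠ i → l ≠ j → d l = 0) (hp : ∀ i, (p i).Good) :
    (∃ T : Fan n, Adapted (expo f) T) ∧ (∀ i, ∃ T : Fan n, Adapted (p i).A T) ∧
    ∀ (T : Fan n) (Tp : Fin r → Fan n), Adapted (expo f) T → (∀ i, Adapted (p i).A (Tp i)) →
    ∀ s₀ : ℂ, (ZTot f p T Tp).denom.eval s₀ = 0 →
      (∃ k : ℤ, s₀ = k) ∨
      ZeroOrPole (zetaTot f p) (Complex.exp (2 * Real.pi * Complex.I * s₀)) ∨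
      (∃ k : Fin n, (∀ d : ℕ, f.coeff (Finsupp.single k d) = 0) ∧
        ZeroOrPole (zetaV (projK k (expo f))) (Complex.exp (2 * Real.pi * Complex.I * s₀))) ∨
      (∃ i, (∀ d : ℕ, (p i).h.coeff (Finsupp.single (p i).z d) = 0) ∧
        ZeroOrPole (zetaV (projK (p i).z (p i).A))
          (Complex.exp (2 * Real.pi * Complex.I * s₀))) ∨
      (∃ v, (∃ i, par i = v ∧ ∃ k : ℤ, ((p i).N : ℂ) * s₀ = k) ∧
        multV (nodeA f p v) s₀ ≤ kapSum p par v s₀) := by
  classical
  have hnn := nonneg_expo f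
  have h0A := zero_notMem_expo f h0
  have hne : (expo f).Nonempty := by
    obtain ⟨d, hd⟩ := MvPolynomial.ne_zero_iff.1 hf
    exact ⟨_, Finset.mem_image.2 ⟨d, MvPolynomial.mem_support_iff.2 hd, rfl⟩⟩
  have hn : 0 < n := by
    rcases Nat.eq_zero_or_pos n with h | h
    · subst h
      obtain ⟨v, hv⟩ := hne
      exact absurd (by rwa [Subsingleton.elim v 0] at hv) h0A
    · exact h
  have hp' : ∀ i j : Fin n, i ≠ j → ∃ v ∈ expo f, ∀ l, l ≠ i → l ≠ j → v l = 0 := by
    intro i j hij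
    obtain ⟨d, hd, hl⟩ := hf2 i j hij
    refine ⟨fun l => (d l : ℤ), Finset.mem_image.2 ⟨d, MvPolynomial.mem_support_iff.2 hd, rfl⟩,
      fun l h1 h2 => by simp [hl l h1 h2]⟩
  have hch : ∀ i, Chart (p i).z (p i).N (p i).A := fun i => (chart_of_good (hp i)).1
  have hpne : ∀ i, (p i).A.Nonempty := fun i => (chart_of_good (hp i)).2
  refine ⟨hDF n _ hne hnn, fun i => hDF n _ (hpne i) (hch i).nonneg, ?_⟩
  intro T Tp hT hTp s₀ hs₀
  -- the poles of the summands
  have hpoles : s₀ = -1 ∨ ∃ q : ℚ, s₀ = -(q : ℂ) ∧ (q.den = 1 ∨ EV (expo f) q.den ≠ 0 ∨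
      (∃ k : Fin n, (projK k (expo f)).Nonempty ∧ (∀ v ∈ projK k (expo f), ∀ i, 0 ≤ v i) ∧
        (0 : Fin n → ℤ) ∉ projK k (expo f) ∧ EV (projK k (expo f)) q.den ≠ 0) ∨
      ∃ i, (q.den ∣ (p i).N ∨ EV (p i).A q.den ≠ 0 ∨
        ((projK (p i).z (p i).A).Nonempty ∧ (∀ v ∈ projK (p i).z (p i).A, ∀ i, 0 ≤ v i) ∧
        (0 : Fin n → ℤ) ∉ projK (p i).z (p i).A ∧ EV (projK (p i).z (p i).A) q.den ≠ 0))) := by
    unfold ZTot at hs₀
    rcases denom_add_root hs₀ with h | h
    · rcases rootPole hNF hZ hE hP hM hFS hLT hLS hn hne hnn h0A hp' T hT s₀ h with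
        h1 | ⟨q, hq, h1⟩
      · exact Or.inl h1
      · refine Or.inr ⟨q, hq, ?_⟩
        rcases h1 with h1 | h1 | h1
        · exact Or.inl h1
        · exact Or.inr (Or.inl h1)
        · exact Or.inr (Or.inr (Or.inl h1))
    · obtain ⟨i, _, hi⟩ := denom_sum_root _ _ h
      rcases denom_add_root hi with h1 | h1
      · rcases corr_root h1 with h2 | h2
        · exact Or.inl h2
        · right
          have hN : ((p i).N : ℂ) ≠ 0 := by
            have := (hp i).1
            exact_mod_cast this.ne'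
          have hs : s₀ = -((((p i).ν : ℚ) / ((p i).N : ℚ) : ℚ) : ℂ) := by
            push_cast
            field_simp
            linear_combination h2
          refine ⟨_, hs, Or.inr (Or.inr (Or.inr ⟨i, Or.inl ?_⟩))⟩
          rw [← int_iff hs]
          exact ⟨-((p i).ν : ℤ), by push_cast; linear_combination h2⟩
      · rcases localPole hNF hZW hNV hLD hVH hAM hMF hPV hFS hLT hLS (hp i).2.1 (hch i) (hpne i)
          (Tp i) (hTp i) s₀ h1 with h2 | ⟨q, _, hq, h2⟩
        · exact Or.inl h2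
        · exact Or.inr ⟨q, hq, Or.inr (Or.inr (Or.inr ⟨i, h2⟩))⟩
  rcases hpoles with h | ⟨q, hq, hcase⟩
  · exact Or.inl ⟨-1, by simp [h]⟩
  by_cases hden : q.den = 1
  · left
    refine ⟨-q.num, ?_⟩
    rw [hq]
    have : q = (q.num : ℚ) := by
      conv_lhs => rw [← Rat.num_div_den q]
      rw [hden]; simp
    rw [this]
    push_cast
    simp
  right
  have hprim := primitive_exp q
  rw [← hq] at hprim
  by_contra hcon
  rw [not_or, not_or, not_or] at hcon
  obtain ⟨hc1, hc2, hc3, hc4⟩ := hcon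
  have hax : ∀ k : Fin n, (projK k (expo f)).Nonempty →
      (∀ v ∈ projK k (expo f), ∀ i, 0 ≤ v i) →
      (0 : Fin n → ℤ) ∉ projK k (expo f) → EV (projK k (expo f)) q.den = 0 := by
    intro k hne' hnn' h0'
    by_contra hEV
    refine hc2 ⟨k, ?_, zop_of_EV hC hne' hnn' h0' q.den_nz hprim hEV⟩
    intro d
    by_contra hd
    have hdA : (fun l => ((Finsupp.single k d) l : ℤ)) ∈ expo f :=
      Finset.mem_image.2 ⟨_, MvPolynomial.mem_support_iff.2 hd, rfl⟩
    apply h0'
    refine Finset.mem_image.2 ⟨_, hdA, ?_⟩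
    funext l
    by_cases hl : l = k
    · subst hl; simp
    · simp [Function.update_of_ne hl, Finsupp.single_apply, Ne.symm hl]
  have haxp : ∀ i, (projK (p i).z (p i).A).Nonempty →
      (∀ v ∈ projK (p i).z (p i).A, ∀ i, 0 ≤ v i) →
      (0 : Fin n → ℤ) ∉ projK (p i).z (p i).A → EV (projK (p i).z (p i).A) q.den = 0 := by
    intro i hne' hnn' h0'
    by_contra hEV
    refine hc3 ⟨i, ?_, zop_of_EV hC hne' hnn' h0' q.den_nz hprim hEV⟩
    intro d
    by_contra hd
    have hdA := (mem_A_iff (p i) _).2 ⟨Finsupp.single (p i).z d, hd, rfl⟩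
    apply h0'
    refine Finset.mem_image.2 ⟨_, hdA, ?_⟩
    funext l
    by_cases hl : l = (p i).z
    · subst hl; simp
    · simp [Function.update_of_ne hl, Finsupp.single_eq_of_ne hl, Pi.single_eq_of_ne hl]
  -- the total exponent
  have hexp : HasExp (zetaTot f p) (fun m => EV (expo f) m +
      ∑ i, ((if m ∣ (p i).N then (-1) ^ n * ((p i).κ : ℤ) else 0) + EV (p i).A m)) := by
    unfold zetaTot
    refine (hasExp_zetaV hne hnn h0A).mul (HasExp.prod _ _ _ fun i _ => ?_)
    exact (HasExp.pow (hp i).1.ne' _).mul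
      (hasExp_zetaV (hpne i) (hch i).nonneg (hch i).zero_notMem)
  have htot : EV (expo f) q.den + ∑ i, ((if q.den ∣ (p i).N then (-1) ^ n * ((p i).κ : ℤ) else 0)
      + EV (p i).A q.den) = 0 := by
    by_contra hEV
    exact hc1 (hexp.zop hC q.den_nz hprim hEV)
  -- nonnegativity
  have hroot := root_nonneg hNF hMN hFS hLT hLS hne hnn h0A hp' q.den_nz hden hax
  have hpt : ∀ i, 0 ≤ (-1) ^ (n - 1) * EV (p i).A q.den := by
    intro i
    by_cases hd : q.den ∣ (p i).N
    · exact posW hNF hNV hBox hS hSC hFS hLT hLS (hch i) (hpne i) q.den_nz hden hd (haxp i)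
    · exact posW' hNF hMN hFS hLT hLS (hch i) (hpne i) q.den_nz hd (haxp i)
  have hsign : (-1 : ℤ) ^ (n - 1) * (-1) ^ n = -1 := by
    rw [← pow_add]
    have : n - 1 + n = 2 * (n - 1) + 1 := by omega
    rw [this, pow_succ, pow_mul]
    simp
  have hsum : (-1) ^ (n - 1) * EV (expo f) q.den + ∑ i, (-1) ^ (n - 1) * EV (p i).A q.den =
      ∑ i, if q.den ∣ (p i).N then ((p i).κ : ℤ) else 0 := by
    have h1 := congrArg (fun x => (-1 : ℤ) ^ (n - 1) * x) htot
    simp only [mul_zero, mul_add, Finset.mul_sum] at h1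
    rw [Finset.sum_add_distrib] at h1
    have h2 : ∑ i, (-1 : ℤ) ^ (n - 1) * (if q.den ∣ (p i).N then (-1) ^ n * ((p i).κ : ℤ) else 0)
        = - ∑ i, if q.den ∣ (p i).N then ((p i).κ : ℤ) else 0 := by
      rw [← Finset.sum_neg_distrib]
      refine Finset.sum_congr rfl fun i _ => ?_
      split_ifs
      · rw [← mul_assoc, hsign]; ring
      · simp
    rw [h2] at h1
    linarith
  by_cases hex : ∃ i, q.den ∣ (p i).N
  · obtain ⟨i, hi⟩ := hex
    have hkv : ∀ v, kapSum p par v s₀ =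
        ∑ i, if par i = v then (if q.den ∣ (p i).N then ((p i).κ : ℤ) else 0) else 0 := by
      intro v
      unfold kapSum
      rw [← Finset.sum_filter, ← Finset.sum_filter, Finset.filter_filter]
      refine Finset.sum_congr ?_ fun _ _ => rfl
      ext i
      simp only [mem_filter, int_iff hq]
    have hkt : ∑ v, kapSum p par v s₀ = ∑ i, if q.den ∣ (p i).N then ((p i).κ : ℤ) else 0 := by
      simp only [hkv]
      rw [Finset.sum_comm]
      refine Finset.sum_congr rfl fun i _ => ?_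
      rw [Finset.sum_ite_eq]
      simp
    have hmt : ∑ v, multV (nodeA f p v) s₀ =
        (-1) ^ (n - 1) * EV (expo f) q.den + ∑ i, (-1) ^ (n - 1) * EV (p i).A q.den := by
      rw [Fintype.sum_option]
      simp only [nodeA, multV_eq hq]
    have hlt : ∑ v, kapSum p par v s₀ < ∑ v, multV (nodeA f p v) s₀ := by
      refine Finset.sum_lt_sum (fun v _ => ?_) ⟨par i, Finset.mem_univ _, ?_⟩
      · by_cases hv : ∃ i, par i = v ∧ ∃ k : ℤ, ((p i).N : ℂ) * s₀ = k
        · by_contra hlt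
          exact hc4 ⟨v, hv, (not_le.1 hlt).le⟩
        · have hk0 : kapSum p par v s₀ = 0 := by
            unfold kapSum
            rw [Finset.filter_false_of_mem (fun i _ hi => hv ⟨i, hi⟩), Finset.sum_empty]
          rw [hk0]
          cases v with
          | none => rw [nodeA, multV_eq hq]; exact hroot
          | some j => rw [nodeA, multV_eq hq]; exact hpt j
      · by_contra hlt
        exact hc4 ⟨par i, ⟨i, rfl, (int_iff hq _).2 hi⟩, not_lt.1 hlt⟩
    rw [hkt, hmt, hsum] at hlt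
    exact lt_irrefl _ hlt
  · push Not at hex
    rw [Finset.sum_eq_zero (s := univ) (f := fun i => if q.den ∣ (p i).N then
      ((p i).κ : ℤ) else 0) (fun i _ => if_neg (hex i))] at hsum
    have hs := Finset.sum_nonneg (s := univ) (fun i _ => hpt i)
    have hu : ∀ {x : ℤ}, (-1 : ℤ) ^ (n - 1) * x = 0 → x = 0 := by
      intro x hx
      rcases mul_eq_zero.1 hx with h | h
      · exact absurd h (pow_ne_zero _ (by norm_num))
      · exact h
    have hr0 : EV (expo f) q.den = 0 := hu (by linarith)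
    have hp0 : ∀ i, EV (p i).A q.den = 0 := by
      intro i
      have h1 : ∑ i, (-1 : ℤ) ^ (n - 1) * EV (p i).A q.den = 0 := by linarith
      exact hu ((Finset.sum_eq_zero_iff_of_nonneg (fun i _ => hpt i)).1 h1 i (Finset.mem_univ i))
    rcases hcase with h | h | ⟨k, h1, h2, h3, h4⟩ | ⟨i, h | h | ⟨h1, h2, h3, h4⟩⟩
    · exact hden h
    · exact h hr0
    · exact h4 (hax k h1 h2 h3)
    · exact hex i h
    · exact h (hp0 i)
    · exact h4 (haxp i h1 h2 h3)

end LocW

end Mono
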