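import Pool.Agent.Helper61.Mono.ClassKill
import Pool.Agent.Helper62.MonoW.Defs

/-! Twisted version of packet E2. -/

namespace Mono

open Finset MvPolynomial

variable {n : ℕ}

theorem classKillW (h : PairVanish) (n : ℕ) (Φ : Fan n) (ν : Fin n → ℕ)
    (Z σ : Finset (Fin n → ℤ)) (c : (Fin n → ℤ) → ℝ) (hσ : Φ.IsClassW ν σ c)
    (hone' : ∀ i, i ∉ cs (ncore Z σ c) → ν i = 1) (hStar : Φ.Star (ncore Z σ c)) :
    Φ.KillW ν Z σ := by
  classical
  intro w hw B hB d y hy hcard
  obtain ⟨hface, hc0, hone⟩ := hσ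
  -- reduction to a monomial
  rw [y.as_sum, Finset.mul_sum, Fan.Esum_sum]
  refine Finset.sum_eq_zero fun m hm => ?_
  have hmd : m.degree = d := by
    have := hy (mem_support_iff.1 hm)
    rw [Finsupp.degree_eq_weight_one]
    exact this
  have hmon : monomial m (coeff m y) = C (coeff m y) * monomial m (1 : ℝ) := by
    rw [C_mul_monomial, mul_one]
  rw [hmon]
  have hre : (∏ u ∈ B, (X u : MvPolynomial (Fin n → ℤ) ℝ)) * (∏ p ∈ apexW ν Z σ B, X p) *
      (C (coeff m y) * monomial m (1 : ℝ)) = C (coeff m y) *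
      ((∏ u ∈ B, X u) * (∏ p ∈ apexW ν Z σ B, X p) * monomial m (1 : ℝ)) := by ring
  rw [hre, Fan.Esum_C_mul]
  refine mul_eq_zero_of_right _ ?_
  -- notation
  set G := ncore Z σ c with hGdef
  have hGσ : G ⊆ σ := Finset.filter_subset _ _
  set P := (σ \ G).filter (fun t => 0 < c t) with hPdef
  set N := (σ \ G).filter (fun t => c t < 0) with hNdef
  have hPN : σ \ G = P ∪ N := by
    ext t
    simp only [hPdef, hNdef, Finset.mem_union, Finset.mem_filter]
    constructor
    · intro ht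
      rcases lt_or_gt_of_ne (hc0 t (Finset.mem_sdiff.1 ht).1) with h1 | h1
      · exact Or.inr ⟨ht, h1⟩
      · exact Or.inl ⟨ht, h1⟩
    · rintro (h1 | h1) <;> exact h1.1
  have hdPN : Disjoint P N := by
    rw [Finset.disjoint_left]
    intro t h1 h2
    rw [hPdef, Finset.mem_filter] at h1
    rw [hNdef, Finset.mem_filter] at h2
    linarith [h1.2, h2.2]
  have hint : ∀ t ∈ σ \ G, t ∉ Z ∧ ∃ z : ℤ, c t = z := by
    intro t ht
    rw [Finset.mem_sdiff] at ht
    have h2 : ¬ (t ∈ Z ∨ ∀ z : ℤ, c t ≠ z) := by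
      intro h3
      exact ht.2 (by rw [hGdef]; exact Finset.mem_filter.2 ⟨ht.1, h3⟩)
    push Not at h2
    exact h2
  have hnn : ∀ t ∈ σ, ∀ i, 0 ≤ t i := fun t ht i =>
    Φ.vert_nonneg t (Fan.IsFace.subset_vert Φ hface ht) i
  have hGz : ∀ i, i ∉ cs G → ∀ t ∈ G, t i = 0 := by
    intro i hi t ht
    by_contra h1
    exact hi (by simp only [cs, Finset.mem_filter, Finset.mem_univ, true_and]; exact ⟨t, ht, h1⟩)
  -- the coordinate sum
  have hsum : ∀ i, i ∉ cs G → (1 : ℝ) = ∑ t ∈ σ \ G, c t * (t i : ℝ) := by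
    intro i hi
    have h1 := congrFun hone i
    rw [nuR_apply, hone' i hi, Nat.cast_one, Finset.sum_apply] at h1
    simp only [Pi.smul_apply, toR_apply, smul_eq_mul] at h1
    rw [h1, ← Finset.sum_sdiff hGσ]
    have h2 : ∑ t ∈ G, c t * (t i : ℝ) = 0 := by
      refine Finset.sum_eq_zero fun t ht => ?_
      rw [hGz i hi t ht]
      simp
    rw [h2, add_zero]
  -- (1)
  have hstep1 : monomial (ind P) (1 : ℝ) ∈ Φ.bad G ⊔ Ideal.span (Set.range Φ.theta) := by
    refine hStar (ind P) ?_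
    intro i hi
    rw [ind_support]
    by_contra hcon
    push Not at hcon
    have h1 := hsum i hi
    rw [hPN, Finset.sum_union hdPN] at h1
    have h2 : ∑ t ∈ P, c t * (t i : ℝ) = 0 := by
      refine Finset.sum_eq_zero fun t ht => ?_
      rw [hcon t ht]
      simp
    have h3 : ∑ t ∈ N, c t * (t i : ℝ) ≤ 0 := by
      refine Finset.sum_nonpos fun t ht => ?_
      rw [hNdef, Finset.mem_filter] at ht
      have h4 : (0 : ℝ) ≤ (t i : ℝ) := by exact_mod_cast hnn t (Finset.mem_sdiff.1 ht.1).1 i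
      exact mul_nonpos_of_nonpos_of_nonneg ht.2.le h4
    linarith
  -- (2)
  have hstep2 : ∀ i, i ∉ cs G →
      ∃ u ∈ (ind N + ind B + ind (apexW ν Z σ B) + m).support, u i ≠ 0 := by
    intro i hi
    have hmem : ∀ u, (u ∈ N ∨ u ∈ B ∨ u ∈ apexW ν Z σ B) →
        u ∈ (ind N + ind B + ind (apexW ν Z σ B) + m).support := by
      intro u hu
      rw [Finsupp.mem_support_iff]
      simp only [Finsupp.add_apply, ind_apply]
      rcases hu with hu | hu | hu <;> simp [hu]
    by_cases hN : ∃ t ∈ N, t i ≠ 0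
    · obtain ⟨t, ht, hti⟩ := hN
      exact ⟨t, hmem t (Or.inl ht), hti⟩
    push Not at hN
    by_cases hBi : ∃ u ∈ B, u i ≠ 0
    · obtain ⟨u, hu, hui⟩ := hBi
      exact ⟨u, hmem u (Or.inr (Or.inl hu)), hui⟩
    push Not at hBi
    -- exactly one p in P
    have h1 := hsum i hi
    rw [hPN, Finset.sum_union hdPN] at h1
    have h2 : ∑ t ∈ N, c t * (t i : ℝ) = 0 := by
      refine Finset.sum_eq_zero fun t ht => ?_
      rw [hN t ht]
      simp
    rw [h2, add_zero] at h1
    have hPm : ∀ t ∈ P, t ∈ σ ∧ t ∉ G ∧ 0 < c t := by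
      intro t ht
      rw [hPdef, Finset.mem_filter, Finset.mem_sdiff] at ht
      exact ⟨ht.1.1, ht.1.2, ht.2⟩
    have hc1 : ∀ t ∈ P, 1 ≤ c t := by
      intro t ht
      obtain ⟨h3, h4, h5⟩ := hPm t ht
      obtain ⟨z, hz⟩ := (hint t (Finset.mem_sdiff.2 ⟨h3, h4⟩)).2
      rw [hz] at h5 ⊢
      have : 0 < z := by exact_mod_cast h5
      exact_mod_cast this
    have hex : ∃ p ∈ P, p i ≠ 0 := by
      by_contra hcon
      push Not at hcon
      have : ∑ t ∈ P, c t * (t i : ℝ) = 0 := by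
        refine Finset.sum_eq_zero fun t ht => ?_
        rw [hcon t ht]
        simp
      linarith
    obtain ⟨p, hp, hpi⟩ := hex
    have hpi1 : 1 ≤ p i := by
      have := hnn p (hPm p hp).1 i
      omega
    have hterm : ∀ t ∈ P, 0 ≤ c t * (t i : ℝ) := by
      intro t ht
      have h4 : (0 : ℝ) ≤ (t i : ℝ) := by exact_mod_cast hnn t (hPm t ht).1 i
      exact mul_nonneg (hPm t ht).2.2.le h4
    have hsplit : ∑ t ∈ P, c t * (t i : ℝ) = c p * (p i : ℝ) + ∑ t ∈ P.erase p, c t * (t i : ℝ) :=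
      (Finset.add_sum_erase P (fun t => c t * (t i : ℝ)) hp).symm
    have hrest : ∀ t ∈ P.erase p, 0 ≤ c t * (t i : ℝ) := fun t ht =>
      hterm t (Finset.mem_of_mem_erase ht)
    have hrest0 : 0 ≤ ∑ t ∈ P.erase p, c t * (t i : ℝ) := Finset.sum_nonneg hrest
    have hpi1' : (1 : ℝ) ≤ (p i : ℝ) := by exact_mod_cast hpi1
    have hcp := hc1 p hp
    have hge : (p i : ℝ) ≤ c p * (p i : ℝ) := by nlinarith
    have hpeq : (p i : ℝ) = 1 := by linarith
    have hz : ∑ t ∈ P.erase p, c t * (t i : ℝ) = 0 := by linarith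
    have hzero : ∀ t ∈ P.erase p, t i = 0 := by
      intro t ht
      have h5 := (Finset.sum_eq_zero_iff_of_nonneg hrest).1 hz t ht
      have h6 := (hPm t (Finset.mem_of_mem_erase ht)).2.2
      rcases mul_eq_zero.1 h5 with h7 | h7
      · linarith
      · exact_mod_cast h7
    refine ⟨p, hmem p (Or.inr (Or.inr ?_)), hpi⟩
    unfold apexW
    rw [Finset.mem_filter]
    refine ⟨Finset.mem_sdiff.2 ⟨(hPm p hp).1,
      (hint p (Finset.mem_sdiff.2 ⟨(hPm p hp).1, (hPm p hp).2.1⟩)).1⟩, i, hone' i hi,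
      by exact_mod_cast hpeq, ?_, hBi⟩
    intro t ht htp
    by_cases htG : t ∈ G
    · exact hGz i hi t htG
    have h7 : t ∈ P ∪ N := by
      rw [← hPN]
      exact Finset.mem_sdiff.2 ⟨ht, htG⟩
    rcases Finset.mem_union.1 h7 with h8 | h8
    · exact hzero t (Finset.mem_erase.2 ⟨htp, h8⟩)
    · exact hN t h8
  -- (3)
  have hcards : P.card + N.card + G.card = σ.card := by
    rw [← Finset.card_union_of_disjoint hdPN, ← hPN, Finset.card_sdiff_add_card_eq_card hGσ]
  have hdeg : (ind P).degree + (ind N + ind B + ind (apexW ν Z σ B) + m).degree + G.card ≤ n := by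
    rw [map_add, map_add, map_add, ind_degree, ind_degree, ind_degree, ind_degree, hmd]
    omega
  have key := h n Φ G (Fan.IsFace.subset Φ hface hGσ) w hw (ind P)
    (ind N + ind B + ind (apexW ν Z σ B) + m) hstep1 hstep2 hdeg
  rw [← Fan.Esum_star Φ hGσ w hw]
  convert key using 2
  have hmul : ∀ a b : (Fin n → ℤ) →₀ ℕ, monomial (a + b) (1 : ℝ) =
      monomial a (1 : ℝ) * monomial b (1 : ℝ) := by
    intro a b
    rw [monomial_mul, mul_one]
  rw [hmul, hmul, hmul, hmul, monomial_ind, monomial_ind, monomial_ind, monomial_ind, hPN,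
    Finset.prod_union hdPN]
  ring

end Mono
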