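import Pool.Agent.Helper62.MonoW.PosW

/-!
# Global assembly
-/

namespace Mono

namespace LocW

open Finset Fin20

variable {n : ℕ}

/-- `r` is a product of powers of the polynomials `1 - t^N`, and `E m` is the order of vanishing
at the primitive `m`-th roots of unity. -/
def HasExp (r : RatFunc ℂ) (E : ℕ → ℤ) : Prop :=
  ∃ g : ℕ →₀ ℤ, g 0 = 0 ∧ r = g.prod (fun N e => (1 - RatFunc.X ^ N : RatFunc ℂ) ^ e) ∧
    ∀ m, E m = g.sum (fun N e => if m ∣ N then e else 0)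

theorem one_sub_X_pow_ne {N : ℕ} (hN : N ≠ 0) : (1 - RatFunc.X ^ N : RatFunc ℂ) ≠ 0 := by
  have h : (1 - RatFunc.X ^ N : RatFunc ℂ) =
      algebraMap (Polynomial ℂ) (RatFunc ℂ) (1 - Polynomial.X ^ N) := by
    simp
  rw [h, Ne, FaithfulSMul.algebraMap_eq_zero_iff]
  intro h0
  have h1 := congrArg (Polynomial.eval 0) h0
  simp [hN] at h1

theorem HasExp.one : HasExp 1 (fun _ => 0) :=
  ⟨0, rfl, by simp, fun m => by simp⟩

theorem HasExp.pow {N : ℕ} (hN : N ≠ 0) (e : ℤ) :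
    HasExp ((1 - RatFunc.X ^ N : RatFunc ℂ) ^ e) (fun m => if m ∣ N then e else 0) := by
  refine ⟨Finsupp.single N e, Finsupp.single_eq_of_ne hN.symm, ?_, fun m => ?_⟩
  · rw [Finsupp.prod_single_index]
    exact zpow_zero _
  · rw [Finsupp.sum_single_index]
    split_ifs <;> rfl

theorem HasExp.mul {r r' : RatFunc ℂ} {E E' : ℕ → ℤ} (h : HasExp r E) (h' : HasExp r' E') :
    HasExp (r * r') (fun m => E m + E' m) := by
  obtain ⟨g, hg0, hr, hE⟩ := h
  obtain ⟨g', hg0', hr', hE'⟩ := h'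
  refine ⟨g + g', by simp [hg0, hg0'], ?_, fun m => ?_⟩
  · rw [hr, hr', Finsupp.prod_add_index]
    · intro N _
      exact zpow_zero _
    · intro N hN a b
      refine zpow_add₀ (one_sub_X_pow_ne ?_) a b
      rintro rfl
      rw [Finset.mem_union, Finsupp.mem_support_iff, Finsupp.mem_support_iff] at hN
      rcases hN with h | h
      · exact h hg0
      · exact h hg0'
  · show E m + E' m = _
    rw [hE, hE', Finsupp.sum_add_index]
    · intro N _
      split_ifs <;> rfl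
    · intro N _ a b
      split_ifs <;> simp

theorem HasExp.prod {ι : Type*} (s : Finset ι) (r : ι → RatFunc ℂ) (E : ι → ℕ → ℤ)
    (h : ∀ i ∈ s, HasExp (r i) (E i)) : HasExp (∏ i ∈ s, r i) (fun m => ∑ i ∈ s, E i m) := by
  classical
  induction s using Finset.induction_on with
  | empty => simpa using HasExp.one
  | insert a s ha ih =>
    have h1 := (h a (Finset.mem_insert_self _ _)).mul
      (ih (fun i hi => h i (Finset.mem_insert_of_mem hi)))
    simpa [Finset.prod_insert ha, Finset.sum_insert ha] using h1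

theorem HasExp.zop (hC : CycloLemma) {r : RatFunc ℂ} {E : ℕ → ℤ} (h : HasExp r E) {m : ℕ}
    (hm : m ≠ 0) {ω : ℂ} (hω : IsPrimitiveRoot ω m) (hE : E m ≠ 0) : ZeroOrPole r ω := by
  obtain ⟨g, hg0, hr, hgE⟩ := h
  rw [hr]
  refine hC ℕ g.support (fun N => N) g m ω ?_ hω hm ?_
  · rintro N hN rfl
    exact (Finsupp.mem_support_iff.1 hN) hg0
  · rw [Finset.sum_filter]
    rw [hgE m] at hE
    exact hE

theorem hasExp_zetaV {A : Finset (Fin n → ℤ)} (hA : A.Nonempty)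
    (hnn : ∀ v ∈ A, ∀ i, 0 ≤ v i) (h0 : (0 : Fin n → ℤ) ∉ A) : HasExp (zetaV A) (EV A) := by
  unfold zetaV
  have h1 := HasExp.prod ((cfaces A).filter (fun φ => dimF φ + 1 = (cs φ).card))
    (fun φ => (1 - RatFunc.X ^ latDist φ : RatFunc ℂ) ^ ((-1) ^ dimF φ * nvol φ))
    (fun φ m => if m ∣ latDist φ then (-1) ^ dimF φ * nvol φ else 0) (by
      intro φ hφ
      exact HasExp.pow (latDist_ne_zero hA hnn h0 (Finset.mem_filter.1 hφ).1) _)
  have h2 : (fun m => ∑ φ ∈ (cfaces A).filter (fun φ => dimF φ + 1 = (cs φ).card),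
      if m ∣ latDist φ then (-1) ^ dimF φ * nvol φ else 0) = EV A := by
    funext m
    unfold EV
    rw [← Finset.sum_filter, Finset.filter_filter]
  rw [h2] at h1
  exact h1

/-- Nonnegativity of the exponents at the root. -/
theorem root_nonneg (hNF : NewtonFan) (hMN : MultNonneg) (hFS : FaceSumMult) (hLT : LinkTri)
    (hLS : LinkSum) {A : Finset (Fin n → ℤ)} (hne : A.Nonempty) (hnn : ∀ v ∈ A, ∀ i, 0 ≤ v i)
    (h0 : (0 : Fin n → ℤ) ∉ A)
    (hp : ∀ i j : Fin n, i ≠ j → ∃ v ∈ A, ∀ l, l ≠ i → l ≠ j → v l = 0) {m : ℕ} (hm0 : m ≠ 0)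
    (hm1 : m ≠ 1)
    (hE : ∀ k : Fin n, (projK k A).Nonempty → (∀ v ∈ projK k A, ∀ i, 0 ≤ v i) →
      (0 : Fin n → ℤ) ∉ projK k A → EV (projK k A) m = 0) :
    0 ≤ (-1) ^ (n - 1) * EV A m := by
  classical
  obtain ⟨Φ, Z, hTri, hcoh⟩ := hNF n _ hne hnn h0
  have hpos := hMN n Φ hcoh Z ∅ hTri.2.2.2.2.2.1 (Finset.empty_subset _) m hm0 hm1
  have hZ := hTri.2.2.2.2.2.1.2.1
  have huniq : ∀ τ ∈ Φ.faces, ∀ z ∈ τ ∩ Z, ∀ z' ∈ τ ∩ Z, z = z' := by
    intro τ hτ z hz z' hz'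
    rw [mem_inter] at hz hz'
    obtain ⟨i, rfl⟩ := hZ z hz.2
    obtain ⟨j, rfl⟩ := hZ z' hz'.2
    by_contra hne
    have hij : i ≠ j := fun h => hne (by rw [h])
    obtain ⟨F, hF, hs⟩ := isFace_of_mem hτ
    exact no_two hTri hp hF hij (psi_single_of_mem hF (hs hz.1) hz.2)
      (psi_single_of_mem hF (hs hz'.1) hz'.2)
  have hax := fun k hk => axis_part hFS hLT hLS hTri hp k hk m (fun _ => hE k)
  have hmult : Φ.mult Z ∅ m = (-1) ^ (n - 1) * EV A m := by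
    rw [← origin_part hFS hTri m]
    unfold Fan.mult
    have hsplit : ∀ τ ∈ Φ.faces.filter (fun τ => ∅ ⊆ τ ∧ ¬ τ ⊆ Z ∧ τ.card = (cs τ).card ∧
        m ∣ latDistZ Z τ), (-1 : ℤ) ^ (n - τ.card) * (volZ Z τ : ℤ) =
        (if Disjoint τ Z then (-1 : ℤ) ^ (n - τ.card) * (volZ Z τ : ℤ) else 0) +
        ∑ z ∈ Z, if z ∈ τ then (-1 : ℤ) ^ (n - τ.card) * (volZ Z τ : ℤ) else 0 := by
      intro τ hτ
      rw [mem_filter] at hτ
      by_cases hd : Disjoint τ Z
      · rw [if_pos hd, Finset.sum_eq_zero, add_zero]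
        intro z hz
        rw [if_neg]
        exact fun h => Finset.disjoint_left.1 hd h hz
      · rw [if_neg hd, zero_add]
        rw [Finset.not_disjoint_iff] at hd
        obtain ⟨z, hzτ, hzZ⟩ := hd
        rw [Finset.sum_eq_single z]
        · rw [if_pos hzτ]
        · intro z' hz' hne
          rw [if_neg]
          intro h
          exact hne (huniq τ hτ.1 z' (mem_inter.2 ⟨h, hz'⟩) z (mem_inter.2 ⟨hzτ, hzZ⟩))
        · exact fun h => absurd hzZ h
    rw [Finset.sum_congr rfl hsplit, Finset.sum_add_distrib, Finset.sum_comm]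
    have hB : ∑ z ∈ Z, ∑ τ ∈ Φ.faces.filter (fun τ => ∅ ⊆ τ ∧ ¬ τ ⊆ Z ∧
        τ.card = (cs τ).card ∧ m ∣ latDistZ Z τ),
        (if z ∈ τ then (-1 : ℤ) ^ (n - τ.card) * (volZ Z τ : ℤ) else 0) = 0 := by
      refine Finset.sum_eq_zero fun z hz => ?_
      obtain ⟨k, rfl⟩ := hZ z hz
      rw [← Finset.sum_filter, Finset.filter_filter, ← hax k hz]
      refine Finset.sum_congr ?_ fun _ _ => rfl
      ext τ
      simp only [mem_filter]
      constructor
      · rintro ⟨h1, ⟨_, h2, h3, h4⟩, h5⟩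
        exact ⟨h1, h5, h2, h3, h4⟩
      · rintro ⟨h1, h5, h2, h3, h4⟩
        exact ⟨h1, ⟨Finset.empty_subset _, h2, h3, h4⟩, h5⟩
    rw [hB, add_zero, ← Finset.sum_filter, Finset.filter_filter]
    refine Finset.sum_congr ?_ fun _ _ => rfl
    ext τ
    simp only [mem_filter]
    constructor
    · rintro ⟨h1, ⟨_, h2, h3, h4⟩, h5⟩
      exact ⟨h1, h5, h2, h3, h4⟩
    · rintro ⟨h1, h5, h2, h3, h4⟩
      exact ⟨h1, ⟨Finset.empty_subset _, h2, h3, h4⟩, h5⟩
  rw [← hmult]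
  exact hpos

/-- The poles of the contribution of the root. -/
theorem rootPole (hNF : NewtonFan) (hZ : ZFormula)
    (hE : ZEval) (hP : PoleLemma) (hM : ClassMain) (hFS : FaceSumMult)
    (hLT : LinkTri) (hLS : LinkSum)
    {A : Finset (Fin n → ℤ)} (hn : 0 < n) (hne : A.Nonempty) (hnn : ∀ v ∈ A, ∀ i, 0 ≤ v i)
    (h0 : (0 : Fin n → ℤ) ∉ A)
    (hp : ∀ i j : Fin n, i ≠ j → ∃ v ∈ A, ∀ l, l ≠ i → l ≠ j → v l = 0)
    (T : Fan n) (hT : Adapted A T) (s₀ : ℂ) (hs₀ : (ZDL A T).denom.eval s₀ = 0) :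
    s₀ = -1 ∨ ∃ r : ℚ, s₀ = -(r : ℂ) ∧ (r.den = 1 ∨ EV A r.den ≠ 0 ∨
      ∃ k : Fin n, (projK k A).Nonempty ∧ (∀ v ∈ projK k A, ∀ i, 0 ≤ v i) ∧
        (0 : Fin n → ℤ) ∉ projK k A ∧ EV (projK k A) r.den ≠ 0) := by
  obtain ⟨Φ, Z, hTri, hCoh⟩ := hNF n _ hne hnn h0
  obtain ⟨q, hq, hpos, hZf⟩ := hZ n _ Z Φ hn hTri
  have hpole := hP (ZDL A T) (Φ.mx.image (fun F => psi Z F (fun _ => (1 : ℝ)))) q (by
    intro s hs _
    have h1 := hE n A T hnn s hs
    refine ⟨h1.1, ?_⟩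
    rw [h1.2, hZf T hT s hs]) s₀ hs₀
  rcases hpole with h | ⟨a, _, hqa, hsa⟩
  · exact Or.inl h
  · right
    have hex : ∃ σ c, Φ.IsClass σ c ∧ ∑ t ∈ σ \ Z, c t = a ∧ ¬ Φ.Kill Z σ := by
      by_contra hcon
      push Not at hcon
      exact hqa (hq a (fun σ c h1 h2 => hcon σ c h1 h2))
    obtain ⟨σ, c, hcl, hsum, hk⟩ := hex
    obtain ⟨r, hr, hmain⟩ := hM n Φ hCoh Z σ hTri.2.2.2.2.2.1 c hcl
    have har : a = (r : ℝ) := by rw [← hsum, hr]
    have hs' : s₀ = -(r : ℂ) := by rw [hsa, har]; push_cast; rfl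
    refine ⟨r, hs', ?_⟩
    by_contra hcon
    push Not at hcon
    obtain ⟨hden, hc1, hc2⟩ := hcon
    apply hk
    apply hmain hden
    refine mult_zero hFS hLT hLS hTri hp r.den Finset.inter_subset_right hc1 ?_
    intro k hkZ hface hne' hnn' h0'
    exact hc2 k hne' hnn' h0'

/-- Denominators of sums. -/
theorem denom_add_root {x y : RatFunc ℂ} {s : ℂ} (h : (x + y).denom.eval s = 0) :
    x.denom.eval s = 0 ∨ y.denom.eval s = 0 := by
  obtain ⟨c, hc⟩ := RatFunc.denom_add_dvd x y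
  have h1 := congrArg (Polynomial.eval s) hc
  rw [Polynomial.eval_mul, Polynomial.eval_mul, h, zero_mul] at h1
  exact mul_eq_zero.1 h1

theorem denom_sum_root {ι : Type*} (P : Finset ι) (x : ι → RatFunc ℂ) {s : ℂ}
    (h : (∑ p ∈ P, x p).denom.eval s = 0) : ∃ p ∈ P, (x p).denom.eval s = 0 := by
  classical
  induction P using Finset.induction_on with
  | empty =>
    rw [Finset.sum_empty, RatFunc.denom_zero, Polynomial.eval_one] at h
    exact absurd h one_ne_zero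
  | insert a P ha ih =>
    rw [Finset.sum_insert ha] at h
    rcases denom_add_root h with h1 | h1
    · exact ⟨a, Finset.mem_insert_self _ _, h1⟩
    · obtain ⟨p, hp, h2⟩ := ih h1
      exact ⟨p, Finset.mem_insert_of_mem hp, h2⟩

end LocW

end Mono
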