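import Pool.Agent.Helper66.Mono.KillZ
import Pool.Agent.Helper62.MonoW.Defs

/-! Twisted version of packet F2. -/

namespace Mono

open Finset

variable {n : ℕ}

theorem mem_apexW {ν : Fin n → ℕ} {Z σ B : Finset (Fin n → ℤ)} {p : Fin n → ℤ} :
    p ∈ apexW ν Z σ B ↔ (p ∈ σ ∧ p ∉ Z) ∧
      ∃ i, ν i = 1 ∧ p i = 1 ∧ (∀ t ∈ σ, t ≠ p → t i = 0) ∧ ∀ u ∈ B, u i = 0 := by
  simp [apexW]

theorem apexW_coeff {ν : Fin n → ℕ} {Φ : Fan n} {Z σ B : Finset (Fin n → ℤ)} {c : (Fin n → ℤ) → ℝ}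
    (hc : Φ.IsClassW ν σ c) {p : Fin n → ℤ} (hp : p ∈ apexW ν Z σ B) : c p = 1 := by
  obtain ⟨⟨h1, -⟩, i, hi0, hi1, hi2, -⟩ := mem_apexW.1 hp
  have h := congrFun hc.2.2 i
  rw [Finset.sum_apply, Finset.sum_eq_single p] at h
  · simp [hi1] at h
    rw [h.symm, hi0, Nat.cast_one]
  · intro t ht htp
    simp [hi2 t ht htp]
  · exact fun h => absurd h1 h

theorem inner_dvdW (hV : VolHeight) {ν : Fin n → ℕ} {Φ : Fan n} {Z σ B : Finset (Fin n → ℤ)}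
    {c : (Fin n → ℤ) → ℝ} (hc : Φ.IsClassW ν σ c) :
    (∏ p ∈ apexW ν Z σ B, (MvPolynomial.X p : MvPolynomial (Fin n → ℤ) ℝ)) ∣
      ∑ ρ ∈ (σ \ Z).powerset, MvPolynomial.C ((-1) ^ (ρ.card + B.card) * (vol (ρ ∪ B) : ℝ) ^ 2) *
        ∏ t ∈ σ \ ρ, tgeo (n := n) (c t) (MvPolynomial.X t) := by
  classical
  set A := apexW ν Z σ B with hA
  set D := (σ \ Z) \ A with hD
  set g : (Fin n → ℤ) → MvPolynomial (Fin n → ℤ) ℝ := fun t => tgeo (n := n) (c t) (MvPolynomial.X t)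
    with hg
  set F : Finset (Fin n → ℤ) → MvPolynomial (Fin n → ℤ) ℝ := fun ρ =>
    MvPolynomial.C ((-1) ^ (ρ.card + B.card) * (vol (ρ ∪ B) : ℝ) ^ 2) with hFdef
  have hAs : A ⊆ σ \ Z := Finset.filter_subset _ _
  have hE : σ \ Z = A ∪ D := by
    rw [hD, Finset.union_sdiff_of_subset hAs]
  have hsub : σ \ Z ⊆ σ := Finset.sdiff_subset
  have h1 : ∑ ρ ∈ (σ \ Z).powerset, F ρ * ∏ t ∈ σ \ ρ, g t =
      (∑ ρ ∈ (A ∪ D).powerset, F ρ * ∏ t ∈ (A ∪ D) \ ρ, g t) * ∏ t ∈ σ \ (σ \ Z), g t := by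
    rw [Finset.sum_mul, ← hE]
    refine Finset.sum_congr rfl fun ρ hρ => ?_
    rw [Finset.mem_powerset] at hρ
    rw [mul_assoc]
    congr 1
    rw [← Finset.prod_union]
    · congr 1
      ext x
      simp only [Finset.mem_sdiff, Finset.mem_union]
      constructor
      · rintro ⟨a, b⟩
        by_cases hx : x ∈ Z
        · right; exact ⟨a, fun h => h.2 hx⟩
        · left; exact ⟨⟨a, hx⟩, b⟩
      · rintro (⟨⟨a, b⟩, d⟩ | ⟨a, b⟩)
        · exact ⟨a, d⟩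
        · refine ⟨a, fun h => b ?_⟩
          have := hρ h
          rwa [Finset.mem_sdiff] at this
    · rw [Finset.disjoint_left]
      intro x hx hx2
      rw [Finset.mem_sdiff] at hx hx2
      exact hx2.2 hx.1
  have hflip : ∀ p ∈ A, ∀ ρ ⊆ A ∪ D, p ∉ ρ → F (insert p ρ) = - F ρ := by
    intro p hp ρ hρ hpρ
    obtain ⟨⟨q1, q2⟩, i, _, hi1, hi2, hi3⟩ := mem_apexW.1 hp
    have hv : vol (insert p ρ ∪ B) = vol (ρ ∪ B) := by
      rw [Finset.insert_union]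
      refine hV n _ p i (fun u hu => ?_) hi1
      rcases Finset.mem_union.1 hu with h | h
      · rw [← hE] at hρ
        exact hi2 u (hsub (hρ h)) (fun e => hpρ (e ▸ h))
      · exact hi3 u h
    simp only [hFdef]
    rw [hv, Finset.card_insert_of_notMem hpρ, ← map_neg]
    congr 1
    ring
  have hdis : Disjoint A D := Finset.disjoint_sdiff
  show (∏ p ∈ A, (MvPolynomial.X p : MvPolynomial (Fin n → ℤ) ℝ)) ∣
    ∑ ρ ∈ (σ \ Z).powerset, F ρ * ∏ t ∈ σ \ ρ, g t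
  rw [h1, alt_factor F g D A hdis hflip, mul_assoc]
  refine Dvd.dvd.mul_right ?_ _
  refine Finset.prod_dvd_prod_of_dvd _ _ fun p hp => ?_
  simp only [hg]
  rw [apexW_coeff hc hp]
  exact X_dvd_tgeo p

theorem killZeroW (h : VolHeight) (n : ℕ) (Φ : Fan n) (ν : Fin n → ℕ)
    (Z σ : Finset (Fin n → ℤ)) (c : (Fin n → ℤ) → ℝ) (hc : Φ.IsClassW ν σ c)
    (hkill : Φ.KillW ν Z σ) (η : Fin n → ℝ) (hη : Φ.Generic η) (s : ℝ) :
    Φ.Esum σ η (MvPolynomial.homogeneousComponent (n - σ.card) (Φ.Yhat Z σ c s)) = 0 := by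
  classical
  obtain ⟨F, hF, hσF⟩ := hc.1
  have hσn : σ.card ≤ n := (Finset.card_le_card hσF).trans (Φ.mx_card F hF).le
  have hY : Φ.Yhat Z σ c s = ∑ B ∈ ((Φ.vert \ Z) \ σ).powerset,
      ((∏ u ∈ B, MvPolynomial.X u) * ∑ ρ ∈ (σ \ Z).powerset,
        MvPolynomial.C ((-1) ^ (ρ.card + B.card) * (vol (ρ ∪ B) : ℝ) ^ 2) *
        ∏ t ∈ σ \ ρ, tgeo (n := n) (c t) (MvPolynomial.X t)) *
      tgeo (s + ∑ t ∈ σ \ Z, c t) (∑ u ∈ Φ.vert \ Z, MvPolynomial.X u) := by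
    rw [Fan.Yhat, Fan.Y0, mul_comm, Finset.sum_mul]
  rw [hY, map_sum]
  refine Esum_sum Φ σ η _ _ fun B hB => ?_
  rw [Finset.mem_powerset] at hB
  have hBσ : Disjoint B σ := Finset.disjoint_of_subset_left hB Finset.sdiff_disjoint
  obtain ⟨y, hy⟩ := inner_dvdW h (Z := Z) (B := B) hc
  rw [hy]
  set T := tgeo (n := n) (s + ∑ t ∈ σ \ Z, c t) (∑ u ∈ Φ.vert \ Z, MvPolynomial.X u) with hT
  have e1 : (∏ u ∈ B, (MvPolynomial.X u : MvPolynomial (Fin n → ℤ) ℝ)) *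
      ((∏ p ∈ apexW ν Z σ B, MvPolynomial.X p) * y) * T =
      ((∏ u ∈ B, MvPolynomial.X u) * ∏ p ∈ apexW ν Z σ B, MvPolynomial.X p) * (y * T) := by ring
  have hM : ((∏ u ∈ B, (MvPolynomial.X u : MvPolynomial (Fin n → ℤ) ℝ)) *
      ∏ p ∈ apexW ν Z σ B, MvPolynomial.X p).IsHomogeneous (B.card + (apexW ν Z σ B).card) := by
    refine MvPolynomial.IsHomogeneous.mul ?_ ?_
    · have := MvPolynomial.IsHomogeneous.prod B
        (fun u => (MvPolynomial.X u : MvPolynomial (Fin n → ℤ) ℝ)) (fun _ => 1)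
        (fun u _ => MvPolynomial.isHomogeneous_X _ _)
      simpa using this
    · have := MvPolynomial.IsHomogeneous.prod (apexW ν Z σ B)
        (fun u => (MvPolynomial.X u : MvPolynomial (Fin n → ℤ) ℝ)) (fun _ => 1)
        (fun u _ => MvPolynomial.isHomogeneous_X _ _)
      simpa using this
  rw [e1, hc_mul hM]
  refine Esum_sum Φ σ η _ _ fun i _ => ?_
  split_ifs with hi
  · exact hkill η hη B hBσ i _ (MvPolynomial.homogeneousComponent_isHomogeneous i (y * T))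
      (by omega)
  · exact Esum_zero Φ σ η

end Mono
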