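import Pool.Agent.Helper42.Mono.LimitW
import Pool.Agent.Helper62.MonoW.ClassLimitW
import Pool.Agent.Helper62.MonoW.KillZW

/-! Twisted version of packet F3: the limit of `W` at `ν`. -/

namespace Mono

open Finset

variable {n : ℕ}

/-- The support of the vector `(1,…,1)` in the cone `F`. -/
noncomputable def sgW (ν : Fin n → ℕ) (F : Finset (Fin n → ℤ)) : Finset (Fin n → ℤ) :=
  open Classical in F.filter (fun u => crd F (nuR ν) u ≠ 0)

theorem mem_sgW {ν : Fin n → ℕ} {F : Finset (Fin n → ℤ)} {u : Fin n → ℤ} :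
    u ∈ sgW ν F ↔ crd F (nuR ν) u ≠ 0 := by
  classical
  unfold sgW
  rw [mem_filter]
  constructor
  · exact fun h => h.2
  · intro h
    refine ⟨?_, h⟩
    by_contra hu
    exact h (crd_of_notMem F _ hu)

theorem sgW_subset (ν : Fin n → ℕ) (F : Finset (Fin n → ℤ)) : sgW ν F ⊆ F := by
  classical
  exact Finset.filter_subset _ _

theorem sum_sgW (Φ : Fan n) (ν : Fin n → ℕ) {F : Finset (Fin n → ℤ)} (hF : F ∈ Φ.mx) :
    (nuR ν) = ∑ t ∈ sgW ν F, crd F (nuR ν) t • toR t := by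
  classical
  conv_lhs => rw [← sum_crd (Φ.mx_indep F hF) (Φ.mx_card F hF) (nuR ν)]
  symm
  refine Finset.sum_subset (sgW_subset ν F) fun t _ ht => ?_
  have : crd F (nuR ν) t = 0 := by
    by_contra h
    exact ht (mem_sgW.2 h)
  rw [this, zero_smul]

theorem isClass_sgW (Φ : Fan n) (ν : Fin n → ℕ) {F : Finset (Fin n → ℤ)} (hF : F ∈ Φ.mx) :
    Φ.IsClassW ν (sgW ν F) (crd F (nuR ν)) :=
  ⟨⟨F, hF, sgW_subset ν F⟩, fun _ ht => mem_sgW.1 ht, sum_sgW Φ ν hF⟩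

theorem crd_eq_of_sgW_subset (Φ : Fan n) (ν : Fin n → ℕ) {F F' : Finset (Fin n → ℤ)} (hF : F ∈ Φ.mx)
    (hF' : F' ∈ Φ.mx) (hs : sgW ν F ⊆ F') :
    crd F' (nuR ν) = crd F (nuR ν) := by
  classical
  refine crd_unique (Φ.mx_indep F' hF') ⟨fun u hu => ?_, ?_⟩
  · by_contra h
    exact hu (hs (mem_sgW.2 h))
  · conv_lhs => rw [sum_sgW Φ ν hF]
    refine Finset.sum_subset hs fun t _ ht => ?_
    have : crd F (nuR ν) t = 0 := by
      by_contra h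
      exact ht (mem_sgW.2 h)
    rw [this, zero_smul]

theorem sgW_eq_of_subset (Φ : Fan n) (ν : Fin n → ℕ) {F F' : Finset (Fin n → ℤ)} (hF : F ∈ Φ.mx)
    (hF' : F' ∈ Φ.mx) (hs : sgW ν F ⊆ F') : sgW ν F' = sgW ν F := by
  ext u
  rw [mem_sgW, mem_sgW, crd_eq_of_sgW_subset Φ ν hF hF' hs]

open Classical in
/-- The coefficients of a class. -/
noncomputable def ccfW (Φ : Fan n) (ν : Fin n → ℕ) (σ : Finset (Fin n → ℤ)) : (Fin n → ℤ) → ℝ :=
  if h : ∃ F, F ∈ Φ.mx ∧ sgW ν F = σ then crd (Classical.choose h) (nuR ν) else 0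

theorem ccfW_sg (Φ : Fan n) (ν : Fin n → ℕ) {F : Finset (Fin n → ℤ)} (hF : F ∈ Φ.mx) :
    ccfW Φ ν (sgW ν F) = crd F (nuR ν) := by
  classical
  have h : ∃ F', F' ∈ Φ.mx ∧ sgW ν F' = sgW ν F := ⟨F, hF, rfl⟩
  unfold ccfW
  rw [dif_pos h]
  obtain ⟨h1, h2⟩ := Classical.choose_spec h
  exact (crd_eq_of_sgW_subset Φ ν h1 hF (by rw [h2]; exact sgW_subset ν F)).symm

theorem psi_eqW (Φ : Fan n) (ν : Fin n → ℕ) (Z : Finset (Fin n → ℤ)) {F : Finset (Fin n → ℤ)} (hF : F ∈ Φ.mx) :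
    psi Z F (nuR ν) = ∑ t ∈ sgW ν F \ Z, ccfW Φ ν (sgW ν F) t := by
  classical
  rw [ccfW_sg Φ ν hF]
  unfold psi
  symm
  refine Finset.sum_subset (Finset.sdiff_subset_sdiff (sgW_subset ν F) (Finset.Subset.refl _))
    fun t ht ht' => ?_
  by_contra h
  exact ht' (mem_sdiff.2 ⟨mem_sgW.2 h, (mem_sdiff.1 ht).2⟩)

/-- F3. -/
theorem limitWW (hLD : LowDegree) (hVH : VolHeight) (n : ℕ) (Φ : Fan n) (ν : Fin n → ℕ)
    (hν : ∀ i, 0 < ν i) (Z : Finset (Fin n → ℤ)) (η : Fin n → ℝ) (hη : Φ.Generic η) :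
    ∃ q : ℝ → Polynomial ℝ,
    (∀ a, (∀ σ c, Φ.IsClassW ν σ c → ∑ t ∈ σ \ Z, c t = a → Φ.KillW ν Z σ) → q a = 0) ∧
    ∀ s : ℝ, (∀ F ∈ Φ.mx, s + psi Z F (nuR ν) ≠ 0) →
      Filter.Tendsto (fun ε : ℝ => Φ.W Z s (nuR ν + ε • η))
        (nhdsWithin 0 (Set.Ioi 0))
        (nhds (∑ a ∈ Φ.mx.image (fun F => psi Z F (nuR ν)),
          (q a).eval (1 / (s + a)))) := by
  classical
  let A : Finset (Fin n → ℤ) → ℝ := fun σ => ∑ t ∈ σ \ Z, ccfW Φ ν σ t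
  let Sg : Finset (Finset (Fin n → ℤ)) := Φ.mx.image (sgW ν)
  have hcls : ∀ σ ∈ Sg, Φ.IsClassW ν σ (ccfW Φ ν σ) := by
    intro σ hσ
    obtain ⟨F, hF, rfl⟩ := mem_image.1 hσ
    rw [ccfW_sg Φ ν hF]
    exact isClass_sgW Φ ν hF
  refine ⟨fun a => ∑ σ ∈ Sg.filter (fun σ => A σ = a), qcl Φ Z σ η (ccfW Φ ν σ), ?_, ?_⟩
  · intro a ha
    refine Finset.sum_eq_zero fun σ hσ => ?_
    obtain ⟨hσ, hA⟩ := mem_filter.1 hσ
    have hk : Φ.KillW ν Z σ := ha σ (ccfW Φ ν σ) (hcls σ hσ) hA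
    refine Polynomial.funext fun L => ?_
    have h3 := qcl_eval Φ Z σ η (ccfW Φ ν σ) (1 / L - A σ)
    have h4 : (1 : ℝ) / (1 / L - A σ + ∑ t ∈ σ \ Z, ccfW Φ ν σ t) = L := by
      have : 1 / L - A σ + ∑ t ∈ σ \ Z, ccfW Φ ν σ t = 1 / L := by
        change 1 / L - A σ + A σ = 1 / L
        ring
      rw [this, one_div_one_div]
    rw [h4] at h3
    rw [h3, Polynomial.eval_zero]
    exact killZeroW hVH n Φ ν Z σ (ccfW Φ ν σ) (hcls σ hσ) hk η hη _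
  · intro s hs
    have hmaps : ∀ F ∈ Φ.mx, sgW ν F ∈ Sg := fun F hF => mem_image_of_mem _ hF
    have hW : ∀ w : Fin n → ℝ, Φ.W Z s w =
        ∑ σ ∈ Sg, ∑ F ∈ Φ.mx.filter (fun F => σ ⊆ F), Wterm Z F s w := by
      intro w
      unfold Fan.W
      rw [← Finset.sum_fiberwise_of_maps_to hmaps]
      refine Finset.sum_congr rfl fun σ hσ => ?_
      refine Finset.sum_congr ?_ fun _ _ => rfl
      ext F
      simp only [mem_filter]
      obtain ⟨F₀, hF₀, rfl⟩ := mem_image.1 hσ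
      constructor
      · rintro ⟨h, h'⟩
        exact ⟨h, by rw [← h']; exact sgW_subset ν F⟩
      · rintro ⟨h, h'⟩
        exact ⟨h, sgW_eq_of_subset Φ ν hF₀ h h'⟩
    have hlim : (∑ a ∈ Φ.mx.image (fun F => psi Z F (nuR ν)),
        (∑ σ ∈ Sg.filter (fun σ => A σ = a), qcl Φ Z σ η (ccfW Φ ν σ)).eval (1 / (s + a))) =
        ∑ σ ∈ Sg, Φ.Esum σ η (MvPolynomial.homogeneousComponent (n - σ.card)
          (Φ.Yhat Z σ (ccfW Φ ν σ) s)) := by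
      have hmapsA : ∀ σ ∈ Sg, A σ ∈ Φ.mx.image (fun F => psi Z F (nuR ν)) := by
        intro σ hσ
        obtain ⟨F, hF, rfl⟩ := mem_image.1 hσ
        rw [mem_image]
        exact ⟨F, hF, psi_eqW Φ ν Z hF⟩
      rw [← Finset.sum_fiberwise_of_maps_to hmapsA]
      refine Finset.sum_congr rfl fun a _ => ?_
      rw [Polynomial.eval_finsetSum]
      refine Finset.sum_congr rfl fun σ hσ => ?_
      rw [← qcl_eval, ← (mem_filter.1 hσ).2]
    simp only [hW]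
    rw [hlim]
    refine tendsto_finsetSum _ fun σ hσ => ?_
    refine classLimitW hLD n Φ ν hν Z σ (ccfW Φ ν σ) (hcls σ hσ) η hη s ?_
    obtain ⟨F, hF, rfl⟩ := mem_image.1 hσ
    rw [← psi_eqW Φ ν Z hF]
    exact hs F hF

end Mono
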