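import Pool.Agent.Helper33.Mono.ZFormula
import Pool.Agent.Helper62.MonoW.LimitWW
import Pool.Agent.Helper62.MonoW.FaceSumZW

/-! Twisted version of packet H2: the limit `w → ν`. -/

namespace Mono

open Finset Filter Topology Mono.H33Z

variable {n : ℕ}

theorem psi_posW {ν : Fin n → ℕ} (hν : ∀ i, 0 < ν i) {A Z : Finset (Fin n → ℤ)} {Φ : Fan n}
    (ht : Tri A Z Φ)
    {F : Finset (Fin n → ℤ)} (hF : F ∈ Φ.mx) : 0 < psi Z F (nuR ν) := by
  classical
  obtain ⟨⟨v, hv⟩, hA, _, hd, hvert, hN, _⟩ := ht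
  obtain ⟨h1, h2⟩ := hN.2.2 F hF
  set P := psiL Z (Φ.mx_indep F hF) (Φ.mx_card F hF) with hP
  have hPx : ∀ x : Fin n → ℝ, P x = ∑ i, x i * P (Pi.single i 1) := by
    intro x
    conv_lhs => rw [show x = ∑ i, x i • (Pi.single i (1 : ℝ) : Fin n → ℝ) from by
      funext j
      simp [Finset.sum_apply, Pi.single_apply]]
    rw [map_sum]
    simp only [map_smul, smul_eq_mul]
  have hvm : v ∈ Φ.vert \ Z := by
    rw [Finset.mem_sdiff, hvert]
    exact ⟨Finset.mem_union_left _ hv, Finset.disjoint_left.1 hd hv⟩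
  have h3 : 1 ≤ P (toR v) := h1 v hvm
  have h4 : ∀ i, 0 ≤ P (Pi.single i 1) := h2
  have h5 : ∃ i, 0 < P (Pi.single i 1) := by
    by_contra hcon
    push Not at hcon
    have : P (toR v) ≤ 0 := by
      rw [hPx]
      refine Finset.sum_nonpos fun i _ => ?_
      have h6 : P (Pi.single i 1) = 0 := le_antisymm (hcon i) (h4 i)
      rw [h6, mul_zero]
    linarith
  obtain ⟨i, hi⟩ := h5
  change 0 < P (nuR ν)
  rw [hPx]
  refine Finset.sum_pos' (fun j _ => mul_nonneg (Nat.cast_nonneg _) (h4 j))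
    ⟨i, Finset.mem_univ i, mul_pos (Nat.cast_pos.2 (hν i)) hi⟩

theorem face_posW {ν : Fin n → ℕ} (hν : ∀ i, 0 < ν i) {T : Fan n} {δ : Finset (Fin n → ℤ)} (hδ : T.IsFace δ) {a : Fin n → ℤ}
    (ha : a ∈ δ) : (∀ i, 0 ≤ a i) ∧ 0 < nuR ν ⬝ᵥ toR a := by
  classical
  have h0 : ∀ i, 0 ≤ a i := T.vert_nonneg a (hδ.subset_vert T ha)
  refine ⟨h0, ?_⟩
  have hne : a ≠ 0 := by
    intro h
    have := (hδ.indep T).ne_zero ⟨a, ha⟩
    apply this
    simp only [h]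
    exact toR_zero
  obtain ⟨i, hi⟩ : ∃ i, a i ≠ 0 := by
    by_contra hcon
    push Not at hcon
    exact hne (funext hcon)
  rw [dotProduct]
  refine Finset.sum_pos' (fun j _ => ?_) ⟨i, Finset.mem_univ i, ?_⟩
  · rw [toR_apply]
    exact mul_nonneg (Nat.cast_nonneg _) (by exact_mod_cast h0 j)
  · rw [toR_apply]
    have : 0 < a i := lt_of_le_of_ne (h0 i) (Ne.symm hi)
    exact mul_pos (Nat.cast_pos.2 (hν i)) (by exact_mod_cast this)

theorem dot_wW (ν : Fin n → ℕ) (η : Fin n → ℝ) (ε : ℝ) (a : Fin n → ℝ) :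
    (nuR ν + ε • η) ⬝ᵥ a = nuR ν ⬝ᵥ a + ε * (η ⬝ᵥ a) := by
  rw [add_dotProduct, smul_dotProduct, smul_eq_mul]

/-- H2. -/
theorem zFormulaW (h1 : ZWIdentity) (h2 : NvolSum) (hLD : LowDegree) (hVH : VolHeight) (n : ℕ)
    (ν : Fin n → ℕ) (hν : ∀ i, 0 < ν i) (A Z : Finset (Fin n → ℤ)) (Φ : Fan n) (hn : 0 < n)
    (ht : Tri A Z Φ) : ∃ q : ℝ → Polynomial ℝ,
    (∀ a, (∀ σ c, Φ.IsClassW ν σ c → ∑ t ∈ σ \ Z, c t = a → Φ.KillW ν Z σ) → q a = 0) ∧
    (∀ F ∈ Φ.mx, 0 < psi Z F (nuR ν)) ∧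
    ∀ T : Fan n, Adapted A T → ∀ s : ℝ, 0 < s →
      ZrealW ν A T s = ((∏ i, (ν i : ℝ)⁻¹) - s * ∑ a ∈ Φ.mx.image (fun F => psi Z F (nuR ν)),
        (q a).eval (1 / (s + a))) / (s + 1) := by
  classical
  obtain ⟨η, hη⟩ := exists_eta Φ
  obtain ⟨q, hq0, hq⟩ := limitWW hLD hVH n Φ ν hν Z η hη
  refine ⟨q, hq0, fun F hF => psi_posW hν ht hF, ?_⟩
  intro T hT s hs
  have hAne := ht.1
  have hA0 := ht.2.1
  rw [faceSumZW h2 n ν A Z Φ T ht s]
  -- the path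
  set w : ℝ → Fin n → ℝ := fun ε => nuR ν + ε • η with hw
  -- left side
  have hL : Tendsto (fun ε => ∑ τ ∈ Φ.faces.filter (fun τ => τ.Nonempty ∧ τ ⊆ A),
      cDL (τ.card - 1) s * (vol τ : ℝ) * Jsum A Z T τ s (w ε)) (𝓝[>] 0)
      (𝓝 (∑ τ ∈ Φ.faces.filter (fun τ => τ.Nonempty ∧ τ ⊆ A),
      cDL (τ.card - 1) s * (vol τ : ℝ) * Jsum A Z T τ s (nuR ν))) := by
    refine tendsto_finsetSum _ fun τ _ => Tendsto.const_mul _ ?_
    unfold Jsum
    refine tendsto_finsetSum _ fun δ hδ => ?_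
    rw [Finset.mem_filter, T.mem_faces] at hδ
    refine Tendsto.div tendsto_const_nhds ?_ ?_
    · refine tendsto_finsetProd _ fun a _ => ?_
      refine Tendsto.const_add _ ?_
      simp only [hw, dot_wW]
      exact tendsto_affine _ _
    · rw [Finset.prod_ne_zero_iff]
      intro a ha
      obtain ⟨ha0, ha1⟩ := face_posW hν hδ.1 ha
      have h5 : (0 : ℝ) ≤ NA A a := by exact_mod_cast H33Z.NA_nonneg hAne hA0 ha0
      have h6 : 0 ≤ (NA A a : ℝ) * s := mul_nonneg h5 hs.le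
      exact (add_pos_of_nonneg_of_pos h6 ha1).ne'
  -- right side
  have hW := hq s (fun F hF => by
    have := psi_posW hν ht hF
    linarith)
  have hR : Tendsto (fun ε => (1 / (s + 1)) * (∏ i, (w ε i)⁻¹ - s * Φ.W Z s (w ε))) (𝓝[>] 0)
      (𝓝 ((1 / (s + 1)) * (∏ i : Fin n, (ν i : ℝ)⁻¹ -
        s * ∑ a ∈ Φ.mx.image (fun F => psi Z F (nuR ν)),
          (q a).eval (1 / (s + a))))) := by
    refine Tendsto.const_mul _ (Tendsto.sub ?_ (Tendsto.const_mul _ hW))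
    refine tendsto_finsetProd _ fun i _ => ?_
    refine Tendsto.inv₀ ?_ (Nat.cast_ne_zero.2 (hν i).ne')
    have : (fun ε => w ε i) = fun ε => (ν i : ℝ) + ε * η i := by
      funext ε
      simp [hw]
    rw [this]
    exact tendsto_affine _ _
  -- eventually equal
  have hE : ∀ᶠ ε : ℝ in 𝓝[>] 0, ∑ τ ∈ Φ.faces.filter (fun τ => τ.Nonempty ∧ τ ⊆ A),
      cDL (τ.card - 1) s * (vol τ : ℝ) * Jsum A Z T τ s (w ε) =
      (1 / (s + 1)) * (∏ i, (w ε i)⁻¹ - s * Φ.W Z s (w ε)) := by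
    have e1 : ∀ᶠ ε : ℝ in 𝓝[>] 0, ∀ F ∈ Φ.mx, ∀ u ∈ F, crd F (w ε) u ≠ 0 := by
      rw [Filter.eventually_all_finset]
      intro F hF
      rw [Filter.eventually_all_finset]
      intro u hu
      have h5 := eventually_affine (crd F (nuR ν) u) (crd F η u) (hη.1 F hF u hu)
      filter_upwards [h5] with ε hε
      have hi := Φ.mx_indep F hF
      have hc := Φ.mx_card F hF
      simp only [hw]
      rw [crd_add hi hc, crd_smul hi hc]
      exact hε
    have e2 : ∀ᶠ ε : ℝ in 𝓝[>] 0, ∀ i : Fin n, w ε i ≠ 0 := by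
      rw [Filter.eventually_all]
      intro i
      have h5 := (tendsto_affine (ν i : ℝ) (η i)).eventually_ne (Nat.cast_ne_zero.2 (hν i).ne')
      filter_upwards [h5] with ε hε
      simpa [hw] using hε
    have e3 : ∀ᶠ ε : ℝ in 𝓝[>] 0, ∀ F ∈ Φ.mx, s + psi Z F (w ε) ≠ 0 := by
      rw [Filter.eventually_all_finset]
      intro F hF
      have hi := Φ.mx_indep F hF
      have hc := Φ.mx_card F hF
      have hp := psi_posW hν ht hF
      have h5 := (tendsto_affine (s + psi Z F (nuR ν)) (psi Z F η)).eventually_ne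
        (by linarith : s + psi Z F (nuR ν) ≠ 0)
      filter_upwards [h5] with ε hε
      simp only [hw]
      rw [psi_add Z hi hc, psi_smul Z hi hc, ← add_assoc]
      exact hε
    have e4 : ∀ᶠ ε : ℝ in 𝓝[>] 0, ∀ δ ∈ T.mx, ∀ a ∈ δ, (NA A a : ℝ) * s + w ε ⬝ᵥ toR a ≠ 0 := by
      rw [Filter.eventually_all_finset]
      intro δ hδ
      rw [Filter.eventually_all_finset]
      intro a ha
      obtain ⟨ha0, ha1⟩ := face_posW hν ⟨δ, hδ, Finset.Subset.refl δ⟩ ha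
      have h5 : (0 : ℝ) ≤ NA A a := by exact_mod_cast H33Z.NA_nonneg hAne hA0 ha0
      have h6 : 0 ≤ (NA A a : ℝ) * s := mul_nonneg h5 hs.le
      have h7 := (tendsto_affine ((NA A a : ℝ) * s + nuR ν ⬝ᵥ toR a)
        (η ⬝ᵥ toR a)).eventually_ne (add_pos_of_nonneg_of_pos h6 ha1).ne'
      filter_upwards [h7] with ε hε
      simp only [hw]
      rw [dot_wW, ← add_assoc]
      exact hε
    have e5 : ∀ᶠ ε : ℝ in 𝓝[>] 0, ∀ δ ∈ T.mx, ∀ a ∈ δ, w ε ⬝ᵥ toR a ≠ 0 := by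
      rw [Filter.eventually_all_finset]
      intro δ hδ
      rw [Filter.eventually_all_finset]
      intro a ha
      obtain ⟨ha0, ha1⟩ := face_posW hν ⟨δ, hδ, Finset.Subset.refl δ⟩ ha
      have h7 := (tendsto_affine (nuR ν ⬝ᵥ toR a)
        (η ⬝ᵥ toR a)).eventually_ne ha1.ne'
      filter_upwards [h7] with ε hε
      simp only [hw]
      rw [dot_wW]
      exact hε
    filter_upwards [e1, e2, e3, e4, e5] with ε h1' h2' h3' h4' h5'
    exact h1 n A Z Φ T hn ht hT (w ε) ⟨h1', h2'⟩ s (by linarith) h3' h4' h5'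
  have hfin := tendsto_nhds_unique (hL.congr' hE) hR
  rw [hfin]
  ring

end Mono
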