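import Pool.Agent.Helper20.Mono.Final2
import Pool.Agent.Helper22.Mono.A1
import Pool.Agent.Helper35.Mono.D2
import Pool.Agent.Helper62.MonoW.ClassMainW
import Pool.Agent.Helper62.MonoW.ZFormulaW
import Pool.Agent.Helper62.MonoW.ZEvalW
import Pool.Agent.Helper62.MonoW.PoleW

/-!
# The local theorem at a Newton nondegenerate point of an exceptional divisor

`A` is the set of exponents of `z^N h`, where `z` is the equation of the exceptional divisor and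
`h` restricted to `z = 0` is convenient.
-/

namespace Mono

namespace LocW

open Finset Fin20

variable {n : ℕ}

/-- Exponents of `z^N h`, with `h(·, z = 0)` convenient and `h(0) = 0`. -/
def Chart (z : Fin n) (N : ℕ) (A : Finset (Fin n → ℤ)) : Prop :=
  0 < N ∧ (∀ u ∈ A, (N : ℤ) ≤ u z ∧ ∀ i, 0 ≤ u i) ∧ (Pi.single z (N : ℤ) : Fin n → ℤ) ∉ A ∧
  ∀ k, k ≠ z → ∃ a : ℤ, 0 < a ∧ (Pi.single z (N : ℤ) + Pi.single k a : Fin n → ℤ) ∈ A

/-- The weights of the differential form `z^{ν-1} dz dy`. -/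
def wt (z : Fin n) (ν : ℕ) : Fin n → ℕ := Function.update (fun _ => 1) z ν

theorem wt_pos {z : Fin n} {ν : ℕ} (hν : 0 < ν) (i : Fin n) : 0 < wt z ν i := by
  unfold wt
  by_cases h : i = z
  · subst h; simpa using hν
  · simp [Function.update_of_ne h]

theorem wt_of_ne {z : Fin n} {ν : ℕ} {i : Fin n} (h : i ≠ z) : wt z ν i = 1 := by
  simp [wt, Function.update_of_ne h]

theorem Chart.nonneg {z : Fin n} {N : ℕ} {A : Finset (Fin n → ℤ)} (h : Chart z N A) :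
    ∀ v ∈ A, ∀ i, 0 ≤ v i := fun v hv i => (h.2.1 v hv).2 i

theorem Chart.zero_notMem {z : Fin n} {N : ℕ} {A : Finset (Fin n → ℤ)} (h : Chart z N A) :
    (0 : Fin n → ℤ) ∉ A := by
  intro h0
  have h1 := (h.2.1 0 h0).1
  have h2 := h.1
  simp only [Pi.zero_apply] at h1
  omega

theorem mem_cs {τ : Finset (Fin n → ℤ)} {i : Fin n} : i ∈ cs τ ↔ ∃ u ∈ τ, u i ≠ 0 := by
  unfold cs; simp

section tri

variable {z : Fin n} {N : ℕ} {A Z : Finset (Fin n → ℤ)} {Φ : Fan n}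

/-- Elements of `F \ Z` are points of `A`. -/
theorem mem_A_of (hT : Tri A Z Φ) {F : Finset (Fin n → ℤ)} (hF : F ∈ Φ.mx) {u : Fin n → ℤ}
    (hu : u ∈ F) (huZ : u ∉ Z) : u ∈ A := by
  have h1 := Φ.mx_sub F hF hu
  rw [hT.2.2.2.2.1, mem_union] at h1
  exact h1.resolve_right huZ

theorem psi_ge_one (hT : Tri A Z Φ) {F : Finset (Fin n → ℤ)} (hF : F ∈ Φ.mx) {v : Fin n → ℤ}
    (hv : v ∈ A) : 1 ≤ psi Z F (toR v) := by
  obtain ⟨_, _, _, hd, hvert, hN, _⟩ := hT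
  refine (hN.2.2 F hF).1 v ?_
  rw [hvert, mem_sdiff, mem_union]
  exact ⟨Or.inl hv, Finset.disjoint_left.1 hd hv⟩

theorem psi_nonneg (hT : Tri A Z Φ) {F : Finset (Fin n → ℤ)} (hF : F ∈ Φ.mx) (i : Fin n) :
    0 ≤ psi Z F (Pi.single i 1) := (hT.2.2.2.2.2.1.2.2 F hF).2 i

theorem psi_dot (_hT : Tri A Z Φ) {F : Finset (Fin n → ℤ)} (hF : F ∈ Φ.mx) (v : Fin n → ℤ) :
    psi Z F (toR v) = ∑ i, (v i : ℝ) * psi Z F (Pi.single i 1) :=
  psi_eq_dot (Φ.mx_indep F hF) (Φ.mx_card F hF) v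

/-- The value of `ψ` at `N e_z + a e_k`. -/
theorem psi_two (hT : Tri A Z Φ) {F : Finset (Fin n → ℤ)} (hF : F ∈ Φ.mx) {k : Fin n}
    (hk : k ≠ z) (a : ℤ) :
    psi Z F (toR (Pi.single z (N : ℤ) + Pi.single k a : Fin n → ℤ)) =
      N * psi Z F (Pi.single z 1) + a * psi Z F (Pi.single k 1) := by
  rw [psi_dot hT hF, Finset.sum_eq_add z k hk.symm]
  · simp [Pi.single_eq_of_ne hk, Pi.single_eq_of_ne hk.symm]
  · intro i _ hi
    simp [Pi.single_eq_of_ne hi.1, Pi.single_eq_of_ne hi.2]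
  · intro h; exact absurd (Finset.mem_univ _) h
  · intro h; exact absurd (Finset.mem_univ _) h

/-- If `e_k ∈ F ∩ Z`, `k ≠ z`, then `ψ(e_z) = 1/N` and every vertex of `F` has `z`-coordinate
`N`. -/
theorem height (hC : Chart z N A) (hT : Tri A Z Φ) {F : Finset (Fin n → ℤ)} (hF : F ∈ Φ.mx)
    {k : Fin n} (hk : k ≠ z) (hkF : (Pi.single k 1 : Fin n → ℤ) ∈ F)
    (hkZ : (Pi.single k 1 : Fin n → ℤ) ∈ Z) (hne : ∃ u ∈ F, u ∉ Z) :
    psi Z F (Pi.single z 1) ≠ 0 ∧ ∀ u ∈ F, u ∉ Z → u z = N := by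
  obtain ⟨a, ha, hv⟩ := hC.2.2.2 k hk
  have h1 := psi_ge_one hT hF hv
  rw [psi_two hT hF hk, psi_single_of_mem hF hkF hkZ, mul_zero, add_zero] at h1
  have hN : (0 : ℝ) < N := by exact_mod_cast hC.1
  have hz0 := psi_nonneg hT hF z
  have hzne : psi Z F (Pi.single z 1) ≠ 0 := by
    intro h
    rw [h, mul_zero] at h1
    linarith
  have hzpos : 0 < psi Z F (Pi.single z 1) := lt_of_le_of_ne hz0 (Ne.symm hzne)
  refine ⟨hzne, fun u hu huZ => ?_⟩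
  have huA := mem_A_of hT hF hu huZ
  obtain ⟨h2, h3⟩ := hC.2.1 u huA
  have h4 := psi_toR Z (Φ.mx_indep F hF) hu
  rw [if_neg huZ, psi_dot hT hF] at h4
  have h5 : (u z : ℝ) * psi Z F (Pi.single z 1) ≤ 1 :=
    (Finset.single_le_sum (f := fun i => (u i : ℝ) * psi Z F (Pi.single i 1))
      (fun i _ => mul_nonneg (by exact_mod_cast h3 i) (psi_nonneg hT hF i))
      (Finset.mem_univ z)).trans h4.le
  have h6 : (u z : ℝ) * psi Z F (Pi.single z 1) ≤ N * psi Z F (Pi.single z 1) := h5.trans h1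
  have h7 : (u z : ℝ) ≤ N := le_of_mul_le_mul_right h6 hzpos
  have h8 : u z ≤ N := by exact_mod_cast h7
  omega

/-- The cones containing some `e_k ∈ Z`, `k ≠ z`, have lattice distance `N`. -/
theorem latDistZ_eq (hC : Chart z N A) (hT : Tri A Z Φ) {τ : Finset (Fin n → ℤ)}
    (hτ : τ ∈ Φ.faces) (hτZ : ¬ τ ⊆ Z) (hcard : τ.card = (cs τ).card) {k : Fin n} (hk : k ≠ z)
    (hkτ : (Pi.single k 1 : Fin n → ℤ) ∈ τ) (hkZ : (Pi.single k 1 : Fin n → ℤ) ∈ Z) :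
    latDistZ Z τ = N := by
  obtain ⟨F, hF, hsF⟩ := isFace_of_mem hτ
  obtain ⟨u₀, hu₀, hu₀Z⟩ := Finset.not_subset.1 hτZ
  obtain ⟨hz, hu⟩ := height hC hT hF hk (hsF hkτ) hkZ ⟨u₀, hsF hu₀, hu₀Z⟩
  have hNpos := hC.1
  have hzZ : ∀ u ∈ τ ∩ Z, u z = 0 := by
    intro u huu
    rw [mem_inter] at huu
    obtain ⟨j, rfl⟩ := hT.2.2.2.2.2.1.2.1 u huu.2
    have : j ≠ z := by
      rintro rfl
      exact hz (psi_single_of_mem hF (hsF huu.1) huu.2)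
    exact Pi.single_eq_of_ne this.symm 1
  have hmem : N ∈ {M : ℕ | 0 < M ∧ ∃ κ : Fin n → ℤ, (∀ u ∈ τ \ Z, κ ⬝ᵥ u = (M : ℤ)) ∧
      ∀ u ∈ τ ∩ Z, κ ⬝ᵥ u = 0} := by
    refine ⟨hNpos, Pi.single z 1, fun u huu => ?_, fun u huu => ?_⟩
    · rw [mem_sdiff] at huu
      rw [single_one_dotProduct]
      exact hu u (hsF huu.1) huu.2
    · rw [single_one_dotProduct]
      exact hzZ u huu
  refine le_antisymm (Nat.sInf_le hmem) (le_csInf ⟨N, hmem⟩ ?_)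
  rintro M ⟨hM, κ, hκ1, hκ2⟩
  -- `e_z` lies in the span of `τ`
  have hzT : z ∈ cs τ := by
    rw [mem_cs]
    refine ⟨u₀, hu₀, ?_⟩
    rw [hu u₀ (hsF hu₀) hu₀Z]
    exact_mod_cast hNpos.ne'
  have hspan := spanT n Φ (cs τ) τ (D2.mem_mxT_cs Φ hτ hcard) (Pi.single z (1 : ℝ)) (by
    intro j hj
    have : j ≠ z := fun h => hj (h ▸ hzT)
    exact Pi.single_eq_of_ne this 1)
  have h1 := hspan.2
  -- apply the forms `κ` and `e_z`
  have hform : ∀ (κ : Fin n → ℤ), (toR κ) ⬝ᵥ (Pi.single z (1 : ℝ)) =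
      ∑ u ∈ τ, crd τ (Pi.single z (1 : ℝ)) u * ((κ ⬝ᵥ u : ℤ) : ℝ) := by
    intro κ
    conv_lhs => rw [h1]
    rw [dotProduct_sum]
    refine Finset.sum_congr rfl fun u _ => ?_
    rw [dotProduct_smul, smul_eq_mul]
    congr 1
    simp [dotProduct]
  have hk1 := hform κ
  have hk2 := hform (Pi.single z 1)
  have hsplit : ∀ g : (Fin n → ℤ) → ℝ, ∑ u ∈ τ, g u = ∑ u ∈ τ \ Z, g u + ∑ u ∈ τ ∩ Z, g u := by
    intro g
    rw [add_comm]
    exact (Finset.sum_inter_add_sum_sdiff _ _ _).symm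
  rw [hsplit] at hk1 hk2
  have e1 : ∑ u ∈ τ ∩ Z, crd τ (Pi.single z (1 : ℝ)) u * ((κ ⬝ᵥ u : ℤ) : ℝ) = 0 :=
    Finset.sum_eq_zero fun u huu => by rw [hκ2 u huu]; simp
  have e2 : ∑ u ∈ τ ∩ Z, crd τ (Pi.single z (1 : ℝ)) u *
      (((Pi.single z 1 : Fin n → ℤ) ⬝ᵥ u : ℤ) : ℝ) = 0 :=
    Finset.sum_eq_zero fun u huu => by rw [single_one_dotProduct, hzZ u huu]; simp
  have e3 : ∑ u ∈ τ \ Z, crd τ (Pi.single z (1 : ℝ)) u * ((κ ⬝ᵥ u : ℤ) : ℝ) =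
      (∑ u ∈ τ \ Z, crd τ (Pi.single z (1 : ℝ)) u) * M := by
    rw [Finset.sum_mul]
    exact Finset.sum_congr rfl fun u huu => by rw [hκ1 u huu]; simp
  have e4 : ∑ u ∈ τ \ Z, crd τ (Pi.single z (1 : ℝ)) u *
      (((Pi.single z 1 : Fin n → ℤ) ⬝ᵥ u : ℤ) : ℝ) =
      (∑ u ∈ τ \ Z, crd τ (Pi.single z (1 : ℝ)) u) * N := by
    rw [Finset.sum_mul]
    refine Finset.sum_congr rfl fun u huu => ?_
    rw [mem_sdiff] at huu
    rw [single_one_dotProduct, hu u (hsF huu.1) huu.2]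
    simp
  rw [e1, e3, add_zero] at hk1
  rw [e2, e4, add_zero] at hk2
  have h3 : (toR κ) ⬝ᵥ (Pi.single z (1 : ℝ)) = (κ z : ℝ) := by simp
  have h4 : (toR (Pi.single z 1 : Fin n → ℤ)) ⬝ᵥ (Pi.single z (1 : ℝ)) = 1 := by simp
  rw [h3] at hk1
  rw [h4] at hk2
  -- M = N κ_z
  have h5 : (M : ℝ) = N * (κ z : ℝ) := by
    have hN' : (N : ℝ) ≠ 0 := by exact_mod_cast hNpos.ne'
    have : (∑ u ∈ τ \ Z, crd τ (Pi.single z (1 : ℝ)) u) = 1 / N := by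
      field_simp
      linarith
    rw [this] at hk1
    rw [hk1]
    field_simp
  have h6 : (M : ℤ) = N * κ z := by exact_mod_cast h5
  have h7 : 0 < κ z := by
    by_contra hcon
    push Not at hcon
    have : (N : ℤ) * κ z ≤ 0 := mul_nonpos_of_nonneg_of_nonpos (by positivity) hcon
    omega
  have h8 : (N : ℤ) ≤ M := by
    rw [h6]
    nlinarith
  exact_mod_cast h8

end tri

end LocW

end Mono
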