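import Pool.Agent.Helper62.MonoW.Local

/-!
# The local theorem: multiplicities and poles
-/

namespace Mono

namespace LocW

open Finset Fin20

variable {n : ℕ}

/-- The part of the multiplicity at the axis of the exceptional divisor. -/
theorem axis_partW (hFS : FaceSumMult) (hLT : LinkTri) (hLS : LinkSum)
    {z : Fin n} {N : ℕ} {A Z : Finset (Fin n → ℤ)} {Φ : Fan n} (hC : Chart z N A)
    (hTri : Tri A Z Φ)
    (hz : (Pi.single z 1 : Fin n → ℤ) ∈ Z) (m : ℕ)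
    (hE : Φ.IsFace {(Pi.single z 1 : Fin n → ℤ)} →
      (projK z A).Nonempty → (∀ v ∈ projK z A, ∀ i, 0 ≤ v i) →
      (0 : Fin n → ℤ) ∉ projK z A → EV (projK z A) m = 0) :
    ∑ τ ∈ Φ.faces.filter (fun τ => Pi.single z 1 ∈ τ ∧ ¬ τ ⊆ Z ∧ τ.card = (cs τ).card ∧
      m ∣ latDistZ Z τ), (-1) ^ (n - τ.card) * (volZ Z τ : ℤ) = 0 := by
  by_cases hface : Φ.IsFace {(Pi.single z 1 : Fin n → ℤ)}
  · have hpos : ∀ F ∈ Φ.mx, (Pi.single z 1 : Fin n → ℤ) ∈ F → ∀ i, i ≠ z →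
        0 < psi Z F (Pi.single i 1) := by
      intro F hF hzF i hiz
      refine lt_of_le_of_ne (psi_nonneg hTri hF i) ?_
      intro h
      obtain ⟨a, ha, hv⟩ := hC.2.2.2 i hiz
      have h1 := psi_ge_one hTri hF hv
      rw [psi_two hTri hF hiz, ← h, psi_single_of_mem hF hzF hz] at h1
      norm_num at h1
    obtain ⟨hinj, Ψ, hTriΨ, hmx⟩ := hLT n A Z Φ z hTri hz hface hpos
    rw [hLS n A Z Φ Ψ z hTri hz hface hpos hinj hTriΨ hmx m, ← hFS n _ _ Ψ hTriΨ m]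
    have := hE hface hTriΨ.1 hTriΨ.2.1 hTriΨ.2.2.1
    unfold EV at this
    rw [this, mul_zero]
  · refine Finset.sum_eq_zero fun τ hτ => ?_
    exfalso
    rw [mem_filter] at hτ
    apply hface
    obtain ⟨F, hF, hs⟩ := isFace_of_mem hτ.1
    exact ⟨F, hF, by simpa using hs hτ.2.1⟩

/-- Only `e_z` can belong to `τ ∩ Z` if `m ∣ latDistZ τ` and `m ∤ N`. -/
theorem only_z {z : Fin n} {N : ℕ} {A Z : Finset (Fin n → ℤ)} {Φ : Fan n} (hC : Chart z N A)
    (hTri : Tri A Z Φ) {m : ℕ} (hm : ¬ m ∣ N) {τ : Finset (Fin n → ℤ)} (hτ : τ ∈ Φ.faces)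
    (hτZ : ¬ τ ⊆ Z) (hcard : τ.card = (cs τ).card) (hmd : m ∣ latDistZ Z τ) :
    ∀ u ∈ τ, u ∈ Z → u = Pi.single z 1 := by
  intro u hu huZ
  obtain ⟨k, rfl⟩ := hTri.2.2.2.2.2.1.2.1 u huZ
  by_cases hk : k = z
  · rw [hk]
  · exact absurd (latDistZ_eq hC hTri hτ hτZ hcard hk hu huZ ▸ hmd) hm

/-- If the exponents of the chart vanish, then so do all multiplicities. -/
theorem mult_zeroW (hFS : FaceSumMult) (hLT : LinkTri) (hLS : LinkSum)
    {z : Fin n} {N : ℕ} {A Z : Finset (Fin n → ℤ)} {Φ : Fan n} (hC : Chart z N A)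
    (hTri : Tri A Z Φ) (m : ℕ) (hm : ¬ m ∣ N)
    {S : Finset (Fin n → ℤ)} (hS : S ⊆ Z) (h0 : EV A m = 0)
    (hE : (Pi.single z 1 : Fin n → ℤ) ∈ Z →
      Φ.IsFace {(Pi.single z 1 : Fin n → ℤ)} →
      (projK z A).Nonempty → (∀ v ∈ projK z A, ∀ i, 0 ≤ v i) →
      (0 : Fin n → ℤ) ∉ projK z A → EV (projK z A) m = 0) :
    Φ.mult Z S m = 0 := by
  classical
  unfold Fan.mult
  have hax : (Pi.single z 1 : Fin n → ℤ) ∈ Z → ∑ τ ∈ Φ.faces.filter (fun τ => Pi.single z 1 ∈ τ ∧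
      ¬ τ ⊆ Z ∧ τ.card = (cs τ).card ∧ m ∣ latDistZ Z τ),
      (-1) ^ (n - τ.card) * (volZ Z τ : ℤ) = 0 := fun hz =>
    axis_partW hFS hLT hLS hC hTri hz m (hE hz)
  by_cases hSne : S = ∅
  · subst hSne
    rw [← Finset.sum_filter_add_sum_filter_not _ (fun τ => Disjoint τ Z)]
    have h1 : ∑ τ ∈ (Φ.faces.filter (fun τ => ∅ ⊆ τ ∧ ¬ τ ⊆ Z ∧ τ.card = (cs τ).card ∧
        m ∣ latDistZ Z τ)).filter (fun τ => Disjoint τ Z),
        (-1) ^ (n - τ.card) * (volZ Z τ : ℤ) = 0 := by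
      have := origin_part hFS hTri m
      rw [h0, mul_zero] at this
      rw [← this]
      refine Finset.sum_congr ?_ fun _ _ => rfl
      ext τ
      simp only [mem_filter]
      constructor
      · rintro ⟨⟨h1, _, h2, h3, h4⟩, h5⟩
        exact ⟨h1, h5, h2, h3, h4⟩
      · rintro ⟨h1, h5, h2, h3, h4⟩
        exact ⟨⟨h1, Finset.empty_subset _, h2, h3, h4⟩, h5⟩
    rw [h1, zero_add]
    by_cases hz : (Pi.single z 1 : Fin n → ℤ) ∈ Z
    · rw [← hax hz]
      refine Finset.sum_congr ?_ fun _ _ => rfl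
      ext τ
      simp only [mem_filter]
      constructor
      · rintro ⟨⟨h1, _, h2, h3, h4⟩, h5⟩
        refine ⟨h1, ?_, h2, h3, h4⟩
        rw [Finset.not_disjoint_iff] at h5
        obtain ⟨u, hu, huZ⟩ := h5
        rw [← only_z hC hTri hm h1 h2 h3 h4 u hu huZ]
        exact hu
      · rintro ⟨h1, h5, h2, h3, h4⟩
        exact ⟨⟨h1, Finset.empty_subset _, h2, h3, h4⟩, fun hd => Finset.disjoint_left.1 hd h5 hz⟩
    · refine Finset.sum_eq_zero fun τ hτ => ?_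
      exfalso
      simp only [mem_filter] at hτ
      obtain ⟨⟨h1, _, h2, h3, h4⟩, h5⟩ := hτ
      rw [Finset.not_disjoint_iff] at h5
      obtain ⟨u, hu, huZ⟩ := h5
      rw [only_z hC hTri hm h1 h2 h3 h4 u hu huZ] at huZ
      exact hz huZ
  · obtain ⟨u₀, hu₀⟩ := Finset.nonempty_iff_ne_empty.2 hSne
    by_cases hall : ∀ u ∈ S, u = Pi.single z 1
    · have hz : (Pi.single z 1 : Fin n → ℤ) ∈ Z := hall u₀ hu₀ ▸ hS hu₀
      rw [← hax hz]
      refine Finset.sum_congr ?_ fun _ _ => rfl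
      ext τ
      simp only [mem_filter]
      constructor
      · rintro ⟨h1, h2, h3, h4, h5⟩
        exact ⟨h1, hall u₀ hu₀ ▸ h2 hu₀, h3, h4, h5⟩
      · rintro ⟨h1, h2, h3, h4, h5⟩
        refine ⟨h1, ?_, h3, h4, h5⟩
        intro u hu
        rw [hall u hu]
        exact h2
    · push Not at hall
      obtain ⟨u, hu, hne⟩ := hall
      refine Finset.sum_eq_zero fun τ hτ => ?_
      rw [mem_filter] at hτ
      exact absurd (only_z hC hTri hm hτ.1 hτ.2.2.1 hτ.2.2.2.1 hτ.2.2.2.2 u (hτ.2.1 hu) (hS hu)) hne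

/-- The poles of the local contribution. -/
theorem localPole (hNF : NewtonFan) (h1 : ZWIdentity) (h2 : NvolSum) (hLD : LowDegree)
    (hVH : VolHeight) (hAM : AlgMain) (hMF : MultFormula) (hPV : PairVanish)
    (hFS : FaceSumMult) (hLT : LinkTri) (hLS : LinkSum)
    {z : Fin n} {N ν : ℕ} (hν : 0 < ν) {A : Finset (Fin n → ℤ)} (hC : Chart z N A)
    (hne : A.Nonempty) (T : Fan n) (hT : Adapted A T) (s₀ : ℂ)
    (hs₀ : (ZDLw (wt z ν) A T).denom.eval s₀ = 0) :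
    s₀ = -1 ∨ ∃ r : ℚ, 0 < r ∧ s₀ = -(r : ℂ) ∧ (r.den ∣ N ∨ EV A r.den ≠ 0 ∨
      ((projK z A).Nonempty ∧ (∀ v ∈ projK z A, ∀ i, 0 ≤ v i) ∧
        (0 : Fin n → ℤ) ∉ projK z A ∧ EV (projK z A) r.den ≠ 0)) := by
  classical
  have hn : 0 < n := by
    rcases Nat.eq_zero_or_pos n with h | h
    · subst h; exact z.elim0
    · exact h
  have hνp := wt_pos (z := z) hν
  obtain ⟨Φ, Z, hTri, hCoh⟩ := hNF n _ hne hC.nonneg hC.zero_notMem
  obtain ⟨q, hq, hpos, hZf⟩ := zFormulaW h1 h2 hLD hVH n (wt z ν) hνp _ Z Φ hn hTri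
  have hpole := poleLemmaW (∏ i, ((wt z ν i : ℕ) : ℝ)⁻¹) (ZDLw (wt z ν) A T)
    (Φ.mx.image (fun F => psi Z F (nuR (wt z ν)))) q (by
    intro s hs _
    have h1 := zEvalW n (wt z ν) hνp A T hC.nonneg s hs
    refine ⟨h1.1, ?_⟩
    rw [h1.2, hZf T hT s hs]) s₀ hs₀
  rcases hpole with h | ⟨a, ha, hqa, hsa⟩
  · exact Or.inl h
  · right
    have hex : ∃ σ c, Φ.IsClassW (wt z ν) σ c ∧ ∑ t ∈ σ \ Z, c t = a ∧
        ¬ Φ.KillW (wt z ν) Z σ := by
      by_contra hcon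
      push Not at hcon
      exact hqa (hq a (fun σ c h1 h2 => hcon σ c h1 h2))
    obtain ⟨σ, c, hcl, hsum, hk⟩ := hex
    obtain ⟨r, hr, hmain⟩ := classMainW hAM hMF hPV n Φ hCoh (wt z ν) Z σ hTri.2.2.2.2.2.1 c hcl
    have har : a = (r : ℝ) := by rw [← hsum, hr]
    have hs' : s₀ = -(r : ℂ) := by rw [hsa, har]; push_cast; rfl
    have hrpos : 0 < r := by
      rw [Finset.mem_image] at ha
      obtain ⟨F, hF, hFa⟩ := ha
      have := hpos F hF
      rw [hFa, har] at this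
      exact_mod_cast this
    refine ⟨r, hrpos, hs', ?_⟩
    by_contra hcon
    push Not at hcon
    obtain ⟨hc0, hc1, hc2⟩ := hcon
    apply hk
    have hden : r.den ≠ 1 := fun h => hc0 (h ▸ one_dvd _)
    refine hmain hden ?_ ?_
    · -- the non-integral part of the class involves `z`
      intro i hi
      refine wt_of_ne ?_
      rintro rfl
      apply hi
      have hex2 : ∃ t ∈ σ \ Z, ∀ k : ℤ, c t ≠ k := by
        by_contra hcon2
        push Not at hcon2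
        have : ∃ k : ℤ, ∑ t ∈ σ \ Z, c t = (k : ℝ) := by
          choose g hg using hcon2
          refine ⟨∑ t ∈ (σ \ Z).attach, g t.1 t.2, ?_⟩
          push_cast
          rw [← Finset.sum_attach]
          exact Finset.sum_congr rfl fun t _ => hg t.1 t.2
        obtain ⟨k, hk⟩ := this
        rw [hr] at hk
        have : r = (k : ℚ) := by exact_mod_cast hk
        exact hden (by rw [this]; simp)
      obtain ⟨t, ht, htk⟩ := hex2
      rw [mem_sdiff] at ht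
      rw [mem_cs]
      refine ⟨t, ?_, ?_⟩
      · unfold ncore
        rw [mem_filter]
        exact ⟨ht.1, Or.inr htk⟩
      · obtain ⟨F, hF, hsF⟩ := hcl.1
        have htA := mem_A_of hTri hF (hsF ht.1) ht.2
        have h3 := (hC.2.1 t htA).1
        have h4 := hC.1
        omega
    · refine mult_zeroW hFS hLT hLS hC hTri r.den hc0 Finset.inter_subset_right hc1 ?_
      intro _ _ h3 h4 h5
      exact hc2 h3 h4 h5

end LocW

end Mono
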