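import Pool.Agent.Helper33.Mono.AlgMain
import Pool.Agent.Helper35.Mono.D2
import Pool.Agent.Helper94.Mono.FaceSum
import Pool.Agent.Helper20.Mono.Final2
import Pool.Agent.Helper18.Mono.E3

/-!
# Nonnegativity of the multiplicities with a condition on the support

`K` is a set of coordinates; only the simplices whose support contains `K` are counted.
-/

namespace Mono

open Finset Pool.Agent.Helper33.Mono

variable {n : ℕ}

/-- The local number `ℓ(G)` relative to `K`. -/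
def Fan.ellK (Φ : Fan n) (K : Finset (Fin n)) (G : Finset (Fin n → ℤ)) : ℤ :=
  ∑ T ∈ (univ : Finset (Finset (Fin n))).filter (fun T => K ∪ cs G ⊆ T),
    (-1) ^ (n - T.card) * (((Φ.mxT T).filter (fun τ => G ⊆ τ)).card : ℤ)

theorem ellK_nonneg (hS : SpanT) (hC : StarCoverT) (Φ : Fan n) (hcoh : Φ.Coherent)
    (K : Finset (Fin n)) (G : Finset (Fin n → ℤ)) (hG : Φ.IsFace G) : 0 ≤ Φ.ellK K G := by
  classical
  have hRD := regDim hS (shelling hS hC)
  set L : Finset (Fin n) := (K ∪ cs G)ᶜ with hL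
  have hdisj : ∀ S ⊆ L, Disjoint S (cs G) := by
    intro S hSL
    rw [Finset.disjoint_left]
    intro i hi hi'
    have := hSL hi
    rw [hL, Finset.mem_compl, Finset.mem_union] at this
    exact this (Or.inr hi')
  have key := distrib_lemma (k := ℝ) (P := MvPolynomial (Fin n → ℤ) ℝ) (L := L)
    (B := Φ.bad G) (I := coordIdeal) (θ := Φ.theta)
    (fun l _ => Ideal.mem_sup_right (theta_mem_coordIdeal l))
    (fun j S hSL hj x hx => by
      rw [← Q_eq'] at hx ⊢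
      exact (hRD n Φ hcoh G hG S (hdisj S hSL)).1 j hj x hx)
    (by
      intro S J _ _ _ a ha
      have h1 : Q (Φ.bad G) coordIdeal Φ.theta 0 S =
          SI ℝ ({A | ¬ Φ.IsFace (A ∪ G)} ∪
            ⋃ l ∈ S, {A : Finset (Fin n → ℤ) | ∃ u, u l ≠ 0 ∧ A = {u}}) := by
        rw [Q_zero, SI_union, SI_biUnion, bad_eq]
        congr 1
        refine iSup_congr fun l => iSup_congr fun _ => ?_
        exact coordIdeal_eq l
      rw [h1] at ha ⊢
      have := SI_crt (k := ℝ) J ({A | ¬ Φ.IsFace (A ∪ G)} ∪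
            ⋃ l ∈ S, {A : Finset (Fin n → ℤ) | ∃ u, u l ≠ 0 ∧ A = {u}})
        (fun i => {A : Finset (Fin n → ℤ) | ∃ u, u i ≠ 0 ∧ A = {u}}) a (by
          intro i hi i' hi' hne
          have := ha i hi i' hi' hne
          rwa [coordIdeal_eq, coordIdeal_eq] at this)
      obtain ⟨x, hx⟩ := this
      refine ⟨x, fun i hi => ?_⟩
      rw [coordIdeal_eq]
      exact hx i hi)
    (fun S hSL => by
      rw [← Q_eq']
      exact (hRD n Φ hcoh G hG S (hdisj S hSL)).2.1)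
  have hsum : ∑ S ∈ L.powerset, (-1 : ℤ) ^ S.card *
      (Module.finrank ℝ (MvPolynomial (Fin n → ℤ) ℝ ⧸ Q (Φ.bad G) coordIdeal Φ.theta n S) : ℤ) =
      Φ.ellK K G := by
    unfold Fan.ellK
    refine Finset.sum_bij' (fun S _ => Sᶜ) (fun T _ => Tᶜ) ?_ ?_ ?_ ?_ ?_
    · intro S hS'
      rw [Finset.mem_filter]
      refine ⟨Finset.mem_univ _, ?_⟩
      rw [Finset.mem_powerset, hL] at hS'
      intro i hi
      rw [Finset.mem_compl]
      intro h
      have := hS' h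
      rw [Finset.mem_compl] at this
      exact this hi
    · intro T hT'
      rw [Finset.mem_filter] at hT'
      rw [Finset.mem_powerset, hL]
      exact Finset.compl_subset_compl.2 hT'.2
    · intro S _
      exact compl_compl S
    · intro T _
      exact compl_compl T
    · intro S hS'
      rw [Finset.mem_powerset] at hS'
      rw [← Q_eq', (hRD n Φ hcoh G hG S (hdisj S hS')).2.2]
      have h1 : n - Sᶜ.card = S.card := by
        rw [Finset.card_compl, Fintype.card_fin]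
        have := Finset.card_le_univ S
        rw [Fintype.card_fin] at this
        omega
      rw [h1]
  rw [hsum] at key
  exact key.1

/-- Sum of the multiplicities over the simplices whose support contains `K`. -/
noncomputable def Fan.multK (Φ : Fan n) (K : Finset (Fin n)) (Z S : Finset (Fin n → ℤ))
    (m : ℕ) : ℤ :=
  ∑ τ ∈ Φ.faces.filter (fun τ => S ⊆ τ ∧ ¬ τ ⊆ Z ∧ τ.card = (cs τ).card ∧ m ∣ latDistZ Z τ ∧
    K ⊆ cs τ), (-1) ^ (n - τ.card) * (volZ Z τ : ℤ)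

open D2 in
theorem multFormulaK (h : BoxCount) (hS : SpanT) (Φ : Fan n) (K : Finset (Fin n))
    (Z S : Finset (Fin n → ℤ)) (q : ℚ) (hq : q.den ≠ 1) :
    Φ.multK K Z S q.den = ∑ G ∈ Φ.faces, (lstar Z (q : ℝ) G : ℤ) * Φ.ellK K (G ∪ S) := by
  classical
  -- the right hand side
  have e1 : ∀ G ∈ Φ.faces, (lstar Z (q : ℝ) G : ℤ) * Φ.ellK K (G ∪ S) =
      ∑ T : Finset (Fin n), ∑ τ ∈ Φ.mxT T, if K ⊆ T ∧ S ⊆ τ ∧ G ⊆ τ then
        (-1) ^ (n - τ.card) * (lstar Z (q : ℝ) G : ℤ) else 0 := by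
    intro G _
    unfold Fan.ellK
    rw [Finset.mul_sum, Finset.sum_filter]
    apply Finset.sum_congr rfl
    intro T _
    have e2 : ∀ τ ∈ Φ.mxT T, τ.card = T.card := fun τ hτ => (mem_filter.1 hτ).2.1
    by_cases hK : K ⊆ T
    · have e3 : (∑ τ ∈ Φ.mxT T, if K ⊆ T ∧ S ⊆ τ ∧ G ⊆ τ then
          (-1) ^ (n - τ.card) * (lstar Z (q : ℝ) G : ℤ) else 0) =
          (lstar Z (q : ℝ) G : ℤ) * ((-1) ^ (n - T.card) *
            (((Φ.mxT T).filter (fun τ => G ∪ S ⊆ τ)).card : ℤ)) := by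
        rw [Finset.card_filter, Nat.cast_sum, Finset.mul_sum, Finset.mul_sum]
        apply Finset.sum_congr rfl
        intro τ hτ
        rw [e2 τ hτ]
        by_cases hc : S ⊆ τ ∧ G ⊆ τ
        · rw [if_pos ⟨hK, hc⟩, if_pos (Finset.union_subset hc.2 hc.1)]
          push_cast
          ring
        · rw [if_neg (fun h => hc h.2), if_neg]
          · simp
          · intro hu
            exact hc ⟨Finset.subset_union_right.trans hu, Finset.subset_union_left.trans hu⟩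
      rw [e3]
      by_cases hT : cs (G ∪ S) ⊆ T
      · rw [if_pos (Finset.union_subset hK hT)]
      · rw [if_neg (fun h => hT (Finset.subset_union_right.trans h))]
        have : (Φ.mxT T).filter (fun τ => G ∪ S ⊆ τ) = ∅ := by
          rw [Finset.filter_eq_empty_iff]
          intro τ hτ hsub
          apply hT
          intro i hi
          obtain ⟨u, hu, hui⟩ := (mem_filter.1 hi).2
          by_contra hiT
          exact hui ((mem_filter.1 hτ).2.2 u (hsub hu) i hiT)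
        rw [this]
        simp
    · rw [if_neg (fun h => hK (Finset.subset_union_left.trans h))]
      symm
      apply Finset.sum_eq_zero
      intro τ _
      rw [if_neg (fun h => hK h.1)]
  rw [Finset.sum_congr rfl e1, Finset.sum_comm]
  -- the inner sum
  have e4 : ∀ T : Finset (Fin n), (∑ G ∈ Φ.faces, ∑ τ ∈ Φ.mxT T, if K ⊆ T ∧ S ⊆ τ ∧ G ⊆ τ then
        (-1) ^ (n - τ.card) * (lstar Z (q : ℝ) G : ℤ) else 0) =
      ∑ τ ∈ Φ.mxT T, if K ⊆ T ∧ S ⊆ τ ∧ ¬ τ ⊆ Z ∧ q.den ∣ latDistZ Z τ then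
        (-1) ^ (n - τ.card) * (volZ Z τ : ℤ) else 0 := by
    intro T
    rw [Finset.sum_comm]
    apply Finset.sum_congr rfl
    intro τ hτ
    have hτf : τ ∈ Φ.faces := (mem_filter.1 hτ).1
    by_cases hSτ : K ⊆ T ∧ S ⊆ τ
    · have e5 : (∑ G ∈ Φ.faces, if K ⊆ T ∧ S ⊆ τ ∧ G ⊆ τ then
          (-1) ^ (n - τ.card) * (lstar Z (q : ℝ) G : ℤ) else 0) =
          (-1) ^ (n - τ.card) * ((∑ G ∈ τ.powerset, lstar Z (q : ℝ) G : ℕ) : ℤ) := by
        rw [Nat.cast_sum, Finset.mul_sum, ← Finset.sum_filter]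
        apply Finset.sum_congr _ (fun _ _ => rfl)
        ext G
        simp only [mem_filter, mem_powerset]
        constructor
        · exact fun h => h.2.2.2
        · intro hG
          refine ⟨?_, hSτ.1, hSτ.2, hG⟩
          rw [Φ.mem_faces]
          exact (Φ.mem_faces.1 hτf).subset Φ hG
      rw [e5, box_sum h Φ hτf hq]
      by_cases hc : ¬ τ ⊆ Z ∧ q.den ∣ latDistZ Z τ
      · rw [if_pos hc, if_pos ⟨hSτ.1, hSτ.2, hc⟩]
      · rw [if_neg hc, if_neg (fun h => hc h.2.2)]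
        simp
    · rw [if_neg (fun h => hSτ ⟨h.1, h.2.1⟩)]
      apply Finset.sum_eq_zero
      intro G _
      rw [if_neg (fun h => hSτ ⟨h.1, h.2.1⟩)]
  rw [Finset.sum_congr rfl (fun T _ => e4 T)]
  -- regroup
  rw [Finset.sum_sigma']
  unfold Fan.multK
  rw [← Finset.sum_filter]
  symm
  apply Finset.sum_bij (fun p _ => p.2)
  · rintro ⟨T, τ⟩ hp
    simp only [mem_filter, mem_sigma, mem_univ, true_and] at hp
    obtain ⟨h1, h0, h2, h3, h4⟩ := hp
    have hcs := cs_eq_of_mxT hS Φ h1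
    refine mem_filter.2 ⟨(mem_filter.1 h1).1, h2, h3, ?_, h4, ?_⟩
    · rw [hcs]
      exact (mem_filter.1 h1).2.1
    · rw [hcs]; exact h0
  · rintro ⟨T, τ⟩ hp ⟨T', τ'⟩ hp' heq
    simp only at heq
    subst heq
    simp only [mem_filter, mem_sigma, mem_univ, true_and] at hp hp'
    have h1 := cs_eq_of_mxT hS Φ hp.1
    have h2 := cs_eq_of_mxT hS Φ hp'.1
    rw [← h1, ← h2]
  · intro τ hτ
    obtain ⟨h1, h2, h3, h4, h5, h6⟩ := mem_filter.1 hτ
    refine ⟨⟨cs τ, τ⟩, ?_, rfl⟩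
    simp only [mem_filter, mem_sigma, mem_univ, true_and]
    exact ⟨mem_mxT_cs Φ h1 h4, h6, h2, h3, h5⟩
  · rintro ⟨T, τ⟩ _
    rfl

/-- The multiplicities relative to `K` are nonnegative. -/
theorem multK_nonneg (h : BoxCount) (hS : SpanT) (hC : StarCoverT) (Φ : Fan n)
    (hcoh : Φ.Coherent) (K : Finset (Fin n)) (Z : Finset (Fin n → ℤ)) (m : ℕ) (hm0 : m ≠ 0)
    (hm1 : m ≠ 1) : 0 ≤ Φ.multK K Z ∅ m := by
  obtain ⟨q, hq⟩ : ∃ q : ℚ, q.den = m := by
    refine ⟨(1 : ℚ) / m, ?_⟩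
    rw [one_div, Rat.inv_natCast_den_of_pos (Nat.pos_of_ne_zero hm0)]
  rw [← hq, multFormulaK h hS Φ K Z ∅ q (hq ▸ hm1)]
  refine Finset.sum_nonneg fun G hG => mul_nonneg (Int.natCast_nonneg _) ?_
  rw [Finset.union_empty]
  exact ellK_nonneg hS hC Φ hcoh K G ((Φ.mem_faces).1 hG)

/-- Packet T2 with a condition on the support. -/
theorem faceSumMultK (h : NvolSum) (K : Finset (Fin n)) (A Z : Finset (Fin n → ℤ)) (Φ : Fan n)
    (hT : Tri A Z Φ) (m : ℕ) :
    ∑ φ ∈ (cfaces A).filter (fun φ => dimF φ + 1 = (cs φ).card ∧ m ∣ latDist φ ∧ K ⊆ cs φ),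
      (-1) ^ dimF φ * nvol φ =
    ∑ τ ∈ Φ.faces.filter (fun τ => τ.Nonempty ∧ τ ⊆ A ∧ τ.card = (cs τ).card ∧ m ∣ latDist τ ∧
      K ⊆ cs τ), (-1) ^ (τ.card - 1) * (vol τ : ℤ) := by
  classical
  -- the condition on simplices
  have key : ∀ τ, CSimp A Φ τ → ((τ.card = (cs τ).card ∧ m ∣ latDist τ ∧ K ⊆ cs τ) ↔
      (τ.card = dimF (car A τ) + 1 ∧
        (dimF (car A τ) + 1 = (cs (car A τ)).card ∧ m ∣ latDist (car A τ) ∧
          K ⊆ cs (car A τ)))) := by
    intro τ hτ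
    have h1 := cs_car hT hτ
    obtain ⟨h2, h3, h4⟩ := car_spec hT hτ
    have h5 := dimF_lt_cs hT h2 (hτ.2.1.mono h3)
    have h6 := card_le_car hT hτ
    have h7 : τ.card ≤ dimF τ + 1 :=
      card_le_dimF (Fan.IsFace.indep Φ hτ.1) hτ.2.1 (Finset.Subset.refl τ)
    rw [h1] at h5 ⊢
    constructor
    · rintro ⟨h8, h9, h10⟩
      refine ⟨by omega, by omega, ?_, h10⟩
      rw [← latDist_eq hτ.2.1 h3 (by omega)]
      exact h9
    · rintro ⟨h8, h9, h10, h11⟩
      refine ⟨by omega, ?_, h11⟩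
      rw [latDist_eq hτ.2.1 h3 (by omega)]
      exact h10
  have hR : ∑ τ ∈ Φ.faces.filter (fun τ => τ.Nonempty ∧ τ ⊆ A ∧ τ.card = (cs τ).card ∧
      m ∣ latDist τ ∧ K ⊆ cs τ), (-1 : ℤ) ^ (τ.card - 1) * (vol τ : ℤ) =
      ∑ τ ∈ Φ.faces.filter (fun τ => (τ.Nonempty ∧ τ ⊆ A) ∧ τ.card = dimF (car A τ) + 1),
        (if dimF (car A τ) + 1 = (cs (car A τ)).card ∧ m ∣ latDist (car A τ) ∧
          K ⊆ cs (car A τ) then
          (-1 : ℤ) ^ (dimF (car A τ)) * (vol τ : ℤ) else 0) := by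
    rw [← Finset.sum_filter]
    refine Finset.sum_congr ?_ ?_
    · rw [Finset.filter_filter]
      refine Finset.filter_congr fun τ hτ => ?_
      constructor
      · rintro ⟨h1, h2, h3⟩
        have hc : CSimp A Φ τ := csimp_iff.1 ⟨hτ, h1, h2⟩
        have h4 := (key τ hc).1 h3
        exact ⟨⟨⟨h1, h2⟩, h4.1⟩, h4.2⟩
      · rintro ⟨⟨⟨h1, h2⟩, h3⟩, h4⟩
        have hc : CSimp A Φ τ := csimp_iff.1 ⟨hτ, h1, h2⟩
        exact ⟨h1, h2, (key τ hc).2 ⟨h3, h4⟩⟩
    · intro τ hτ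
      have h3 := (Finset.mem_filter.1 (Finset.mem_filter.1 hτ).1).2.2
      rw [h3, Nat.add_sub_cancel]
  rw [hR]
  rw [regroup hT _ (fun τ => ?_) (fun φ τ =>
    (if dimF φ + 1 = (cs φ).card ∧ m ∣ latDist φ ∧ K ⊆ cs φ then
      (-1 : ℤ) ^ (dimF φ) * (vol τ : ℤ) else 0))]
  · rw [Finset.sum_filter]
    refine Finset.sum_congr rfl fun φ hφ => ?_
    split_ifs with h1
    · rw [h n A Z Φ hT φ hφ, Finset.mul_sum]
    · rw [Finset.sum_const_zero]
  · rw [Finset.mem_filter, ← csimp_iff]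
    tauto

end Mono
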