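import Pool.Agent.Helper94.Mono.FaceSum
import Pool.Agent.Helper94.Mono.SideLin
import Pool.Agent.Helper20.Mono.Final2

/-!
# Translation of a set of exponents
-/

namespace Mono

namespace LocW

open Finset Pointwise

variable {n : ℕ}

/-- Translation by `c`. -/
def sh (c : Fin n → ℤ) (φ : Finset (Fin n → ℤ)) : Finset (Fin n → ℤ) := φ.image (fun v => v + c)

theorem mem_sh {c : Fin n → ℤ} {φ : Finset (Fin n → ℤ)} {v : Fin n → ℤ} :
    v ∈ sh c φ ↔ ∃ u ∈ φ, u + c = v := by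
  unfold sh
  exact Finset.mem_image

theorem sh_inj (c : Fin n → ℤ) : Function.Injective (sh c) := by
  unfold sh
  exact Finset.image_injective (add_left_injective c)

theorem sh_nonempty {c : Fin n → ℤ} {φ : Finset (Fin n → ℤ)} : (sh c φ).Nonempty ↔ φ.Nonempty := by
  unfold sh
  exact Finset.image_nonempty

theorem NA_attained {A : Finset (Fin n → ℤ)} (hA : A.Nonempty) (a : Fin n → ℤ) :
    ∃ v ∈ A, a ⬝ᵥ v = NA A a := by
  obtain ⟨v, hv, hmin⟩ := A.exists_min_image (fun v => a ⬝ᵥ v) hA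
  exact ⟨v, hv, (NA_eq hmin ⟨v, hv, rfl⟩).symm⟩

theorem NA_sh {A : Finset (Fin n → ℤ)} (hA : A.Nonempty) (c a : Fin n → ℤ) :
    NA (sh c A) a = NA A a + a ⬝ᵥ c := by
  obtain ⟨v, hv, hva⟩ := NA_attained hA a
  refine NA_eq ?_ ⟨v + c, mem_sh.2 ⟨v, hv, rfl⟩, by rw [dotProduct_add, hva]⟩
  intro w hw
  obtain ⟨u, hu, rfl⟩ := mem_sh.1 hw
  rw [dotProduct_add]
  have := NA_le (a := a) hu
  linarith

theorem face_sh {A : Finset (Fin n → ℤ)} (hA : A.Nonempty) (c a : Fin n → ℤ) :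
    face (sh c A) a = sh c (face A a) := by
  ext w
  rw [mem_face, NA_sh hA]
  constructor
  · rintro ⟨h1, h2⟩
    rw [mem_sh]
    obtain ⟨u, hu, rfl⟩ := mem_sh.1 h1
    refine ⟨u, mem_face.2 ⟨hu, ?_⟩, rfl⟩
    rw [dotProduct_add] at h2
    linarith
  · intro h
    obtain ⟨u, hu, rfl⟩ := mem_sh.1 h
    obtain ⟨h1, h2⟩ := mem_face.1 hu
    exact ⟨mem_sh.2 ⟨u, h1, rfl⟩, by rw [dotProduct_add, h2]⟩

theorem cfaces_sh {A : Finset (Fin n → ℤ)} (hA : A.Nonempty) (c : Fin n → ℤ) :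
    cfaces (sh c A) = (cfaces A).image (sh c) := by
  ext φ
  rw [mem_cfaces, Finset.mem_image]
  constructor
  · rintro ⟨a, ha, rfl⟩
    exact ⟨face A a, mem_cfaces.2 ⟨a, ha, rfl⟩, (face_sh hA c a).symm⟩
  · rintro ⟨ψ, hψ, rfl⟩
    obtain ⟨a, ha, rfl⟩ := mem_cfaces.1 hψ
    exact ⟨a, ha, (face_sh hA c a).symm⟩

theorem toR_sh (c : Fin n → ℤ) (φ : Finset (Fin n → ℤ)) :
    toR '' (sh c φ : Set (Fin n → ℤ)) = toR c +ᵥ (toR '' (φ : Set (Fin n → ℤ))) := by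
  ext x
  rw [Set.mem_vadd_set]
  constructor
  · rintro ⟨w, hw, rfl⟩
    obtain ⟨u, hu, rfl⟩ := mem_sh.1 (Finset.mem_coe.1 hw)
    refine ⟨toR u, ⟨u, hu, rfl⟩, ?_⟩
    funext i
    simp [add_comm]
  · rintro ⟨_, ⟨u, hu, rfl⟩, rfl⟩
    refine ⟨u + c, Finset.mem_coe.2 (mem_sh.2 ⟨u, hu, rfl⟩), ?_⟩
    funext i
    simp [add_comm]

theorem dimF_sh (c : Fin n → ℤ) (φ : Finset (Fin n → ℤ)) : dimF (sh c φ) = dimF φ := by
  unfold dimF
  rw [toR_sh, vectorSpan_vadd]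

theorem ehr_sh (c : Fin n → ℤ) (φ : Finset (Fin n → ℤ)) (k : ℕ) : ehr (sh c φ) k = ehr φ k := by
  unfold ehr
  rw [toR_sh, convexHull_vadd]
  refine Nat.card_congr ⟨fun x => ⟨x.1 - (k : ℤ) • c, ?_⟩, fun x => ⟨x.1 + (k : ℤ) • c, ?_⟩,
    fun x => by simp, fun x => by simp⟩
  · obtain ⟨y, hy, hyx⟩ := Set.mem_smul_set.1 x.2
    obtain ⟨w, hw, hwy⟩ := Set.mem_vadd_set.1 hy
    refine Set.mem_smul_set.2 ⟨w, hw, ?_⟩
    have h1 : toR (x.1 - (k : ℤ) • c) = toR x.1 - (k : ℝ) • toR c := by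
      funext i; simp
    rw [h1, ← hyx, ← hwy, vadd_eq_add, smul_add]
    abel
  · obtain ⟨w, hw, hwx⟩ := Set.mem_smul_set.1 x.2
    refine Set.mem_smul_set.2 ⟨toR c +ᵥ w, Set.mem_vadd_set.2 ⟨w, hw, rfl⟩, ?_⟩
    have h1 : toR (x.1 + (k : ℤ) • c) = toR x.1 + (k : ℝ) • toR c := by
      funext i; simp
    rw [h1, ← hwx, vadd_eq_add, smul_add]
    abel

open Classical in
theorem nvol_congr {φ ψ : Finset (Fin n → ℤ)} (hd : dimF φ = dimF ψ) (he : ehr φ = ehr ψ) :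
    nvol φ = nvol ψ := by
  have key : ∀ (d : ℕ) (e : ℕ → ℕ), dimF φ = d → ehr φ = e → nvol φ =
      if h : ∃ V : ℤ, Filter.Tendsto (fun k : ℕ => (d.factorial : ℝ) * e k / (k : ℝ) ^ d)
        Filter.atTop (nhds (V : ℝ)) then h.choose else 0 := by
    rintro d e rfl rfl
    rfl
  rw [key _ _ hd he]
  rfl

theorem nvol_sh (c : Fin n → ℤ) (φ : Finset (Fin n → ℤ)) : nvol (sh c φ) = nvol φ :=
  nvol_congr (dimF_sh c φ) (funext fun k => ehr_sh c φ k)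

/-- Divisibility of the lattice distance. -/
theorem dvd_latDist_iff (φ : Finset (Fin n → ℤ)) (m : ℕ) :
    m ∣ latDist φ ↔ ∀ (κ : Fin n → ℤ) (d : ℤ), (∀ u ∈ φ, κ ⬝ᵥ u = d) → (m : ℤ) ∣ d := by
  constructor
  · intro h κ d hd
    by_cases h0 : d = 0
    · rw [h0]; exact dvd_zero _
    have hex : {N : ℕ | 0 < N ∧ ∃ k : Fin n → ℤ, ∀ u ∈ φ, k ⬝ᵥ u = (N : ℤ)}.Nonempty := by
      rcases lt_or_gt_of_ne h0 with hneg | hpos
      · refine ⟨(-d).toNat, by omega, -κ, fun u hu => ?_⟩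
        rw [neg_dotProduct, hd u hu]
        omega
      · refine ⟨d.toNat, by omega, κ, fun u hu => ?_⟩
        rw [hd u hu]
        omega
    obtain ⟨hpos, κ₀, hκ₀⟩ := Nat.sInf_mem hex
    have hD : (latDist φ : ℤ) ∣ d := by
      rw [Int.dvd_iff_emod_eq_zero]
      by_contra hne
      have h1 : 0 ≤ d % (latDist φ : ℤ) := Int.emod_nonneg _ (by
        have : 0 < latDist φ := hpos
        omega)
      have h2 : d % (latDist φ : ℤ) < latDist φ := Int.emod_lt_of_pos _ (by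
        have : 0 < latDist φ := hpos
        omega)
      have h3 : (d % (latDist φ : ℤ)).toNat ∈
          {N : ℕ | 0 < N ∧ ∃ k : Fin n → ℤ, ∀ u ∈ φ, k ⬝ᵥ u = (N : ℤ)} := by
        refine ⟨by omega, κ - (d / (latDist φ : ℤ)) • κ₀, fun u hu => ?_⟩
        rw [sub_dotProduct, smul_dotProduct, hd u hu, hκ₀ u hu, smul_eq_mul]
        have h4 := Int.emod_add_mul_ediv d (latDist φ : ℤ)
        have h5 : ((d % (latDist φ : ℤ)).toNat : ℤ) = d % (latDist φ : ℤ) := by omega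
        rw [h5]
        have h6 : ((sInf {N : ℕ | 0 < N ∧ ∃ k : Fin n → ℤ, ∀ u ∈ φ, k ⬝ᵥ u = (N : ℤ)} : ℕ) : ℤ) =
          (latDist φ : ℤ) := rfl
        rw [h6]
        linarith
      have h4 := Nat.sInf_le h3
      have h5 : latDist φ ≤ (d % (latDist φ : ℤ)).toNat := h4
      omega
    exact (Int.natCast_dvd_natCast.2 h).trans hD
  · intro h
    by_cases hex : {N : ℕ | 0 < N ∧ ∃ k : Fin n → ℤ, ∀ u ∈ φ, k ⬝ᵥ u = (N : ℤ)}.Nonempty
    · obtain ⟨hpos, κ₀, hκ₀⟩ := Nat.sInf_mem hex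
      exact Int.natCast_dvd_natCast.1 (h κ₀ _ hκ₀)
    · have : latDist φ = 0 := by
        unfold latDist
        rw [Set.not_nonempty_iff_eq_empty.1 hex]
        exact Nat.sInf_empty
      rw [this]
      exact dvd_zero _

/-- Translation by a vector divisible by `m` does not change divisibility of the lattice distance
by `m`. -/
theorem dvd_latDist_sh {φ : Finset (Fin n → ℤ)} {c : Fin n → ℤ} {m : ℕ}
    (hc : ∀ i, (m : ℤ) ∣ c i) : m ∣ latDist (sh c φ) ↔ m ∣ latDist φ := by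
  rw [dvd_latDist_iff, dvd_latDist_iff]
  have hk : ∀ κ : Fin n → ℤ, (m : ℤ) ∣ κ ⬝ᵥ c := fun κ =>
    Finset.dvd_sum fun i _ => Dvd.dvd.mul_left (hc i) _
  constructor
  · intro h κ d hd
    have h1 := h κ (d + κ ⬝ᵥ c) (by
      intro w hw
      obtain ⟨u, hu, rfl⟩ := mem_sh.1 hw
      rw [dotProduct_add, hd u hu])
    exact (dvd_add_left (hk κ)).1 h1
  · intro h κ d hd
    have h1 := h κ (d - κ ⬝ᵥ c) (by
      intro u hu
      have := hd (u + c) (mem_sh.2 ⟨u, hu, rfl⟩)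
      rw [dotProduct_add] at this
      linarith)
    exact (dvd_sub_left (hk κ)).1 h1

theorem cs_sh {φ : Finset (Fin n → ℤ)} (hne : φ.Nonempty) (hnn : ∀ u ∈ φ, ∀ i, 0 ≤ u i) {z : Fin n}
    {N : ℤ} (hN : 0 < N) : cs (sh (Pi.single z N) φ) = insert z (cs φ) := by
  ext i
  rw [mem_cs_h94, Finset.mem_insert, mem_cs_h94]
  constructor
  · rintro ⟨w, hw, hwi⟩
    obtain ⟨u, hu, rfl⟩ := mem_sh.1 hw
    by_cases hi : i = z
    · exact Or.inl hi
    · right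
      refine ⟨u, hu, ?_⟩
      simpa [Pi.single_eq_of_ne hi] using hwi
  · rintro (rfl | ⟨u, hu, hui⟩)
    · obtain ⟨u, hu⟩ := hne
      refine ⟨u + Pi.single i N, mem_sh.2 ⟨u, hu, rfl⟩, ?_⟩
      have := hnn u hu i
      simp only [Pi.add_apply, Pi.single_eq_same]
      omega
    · refine ⟨u + Pi.single z N, mem_sh.2 ⟨u, hu, rfl⟩, ?_⟩
      by_cases hi : i = z
      · subst hi
        have := hnn u hu i
        simp only [Pi.add_apply, Pi.single_eq_same]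
        omega
      · simpa [Pi.single_eq_of_ne hi] using hui

end LocW

end Mono
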