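import Pool.Agent.Helper62.MonoW.Pos
import Pool.Agent.Helper62.MonoW.Shift
import Pool.Agent.Helper62.MonoW.Local2

/-!
# Nonnegativity of the exponents of a chart
-/

namespace Mono

namespace LocW

open Finset Fin20

variable {n : ℕ}

/-- The part of the multiplicity at the origin. -/
theorem origin_partK (hNV : NvolSum) (K : Finset (Fin n)) {A Z : Finset (Fin n → ℤ)} {Φ : Fan n}
    (hTri : Tri A Z Φ) (m : ℕ) :
    ∑ τ ∈ Φ.faces.filter (fun τ => Disjoint τ Z ∧ ¬ τ ⊆ Z ∧ τ.card = (cs τ).card ∧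
      m ∣ latDistZ Z τ ∧ K ⊆ cs τ), (-1) ^ (n - τ.card) * (volZ Z τ : ℤ) =
      (-1) ^ (n - 1) * ∑ φ ∈ (cfaces A).filter (fun φ => dimF φ + 1 = (cs φ).card ∧
        m ∣ latDist φ ∧ K ⊆ cs φ), (-1) ^ dimF φ * nvol φ := by
  rw [faceSumMultK hNV K A Z Φ hTri m, Finset.mul_sum]
  obtain ⟨_, _, _, hd, hvert, _, _⟩ := hTri
  have hlat : ∀ τ : Finset (Fin n → ℤ), Disjoint τ Z → latDistZ Z τ = latDist τ := by
    intro τ hτ
    unfold latDistZ latDist
    rw [Finset.sdiff_eq_self_of_disjoint hτ, Finset.disjoint_iff_inter_eq_empty.1 hτ]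
    simp
  have hvol : ∀ τ : Finset (Fin n → ℤ), Disjoint τ Z → volZ Z τ = vol τ := by
    intro τ hτ
    unfold volZ vol
    rw [Finset.sdiff_eq_self_of_disjoint hτ]
    congr 1
    ext x
    simp only [Set.mem_union, Set.mem_setOf_eq]
    constructor
    · rintro (h | ⟨h1, h2⟩)
      · exact h
      · exact absurd h2 (Finset.disjoint_left.1 hτ h1)
    · exact fun h => Or.inl h
  refine Finset.sum_congr ?_ ?_
  · ext τ
    simp only [mem_filter]
    constructor
    · rintro ⟨h1, h2, h3, h4, h5, h6⟩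
      refine ⟨h1, ?_, ?_, h4, ?_, h6⟩
      · rw [Finset.nonempty_iff_ne_empty]
        rintro rfl
        exact h3 (Finset.empty_subset _)
      · obtain ⟨F, hF, hs⟩ := isFace_of_mem h1
        intro u hu
        have := Φ.mx_sub F hF (hs hu)
        rw [hvert, mem_union] at this
        exact this.resolve_right (Finset.disjoint_left.1 h2 hu)
      · rwa [hlat τ h2] at h5
    · rintro ⟨h1, h2, h3, h4, h5, h6⟩
      have hdis : Disjoint τ Z := Finset.disjoint_of_subset_left h3 hd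
      refine ⟨h1, hdis, ?_, h4, ?_, h6⟩
      · intro h
        obtain ⟨u, hu⟩ := h2
        exact Finset.disjoint_left.1 hdis hu (h hu)
      · rwa [hlat τ hdis]
  · intro τ hτ
    rw [mem_filter] at hτ
    have hcard : τ.card ≤ n := by
      obtain ⟨F, hF, hs⟩ := isFace_of_mem hτ.1
      exact (Finset.card_le_card hs).trans (Φ.mx_card F hF).le
    have hpos : 0 < τ.card := Finset.card_pos.2 hτ.2.1
    rw [hvol τ (Finset.disjoint_of_subset_left hτ.2.2.1 hd), ← mul_assoc, ← pow_add]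
    congr 1
    have e1 : n - 1 + (τ.card - 1) = (n - τ.card) + 2 * (τ.card - 1) := by omega
    rw [e1, pow_add, pow_mul]
    simp

/-- The exponent of a chart whose eigenvalue is a root of unity of order dividing `N`. -/
theorem EV_shift (hNF : NewtonFan) {z : Fin n} {N : ℕ} {A : Finset (Fin n → ℤ)} (hN : 0 < N)
    (hne : A.Nonempty) (hnn : ∀ v ∈ A, ∀ i, 0 ≤ v i) (h0 : (0 : Fin n → ℤ) ∉ A) {m : ℕ}
    (hmN : m ∣ N) :
    EV (sh (Pi.single z (N : ℤ)) A) m =
      ∑ φ ∈ (cfaces A).filter (fun φ => dimF φ + 1 = (cs φ).card ∧ m ∣ latDist φ ∧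
        {z} ⊆ cs φ), (-1) ^ dimF φ * nvol φ := by
  classical
  obtain ⟨Φ, Z, hTri, _⟩ := hNF n _ hne hnn h0
  unfold EV
  have hN' : (0 : ℤ) < N := by exact_mod_cast hN
  have hc : ∀ i, (m : ℤ) ∣ (Pi.single z (N : ℤ) : Fin n → ℤ) i := by
    intro i
    by_cases hi : i = z
    · subst hi
      rw [Pi.single_eq_same]
      exact Int.natCast_dvd_natCast.2 hmN
    · rw [Pi.single_eq_of_ne hi]
      exact dvd_zero _
  have hφne : ∀ φ ∈ cfaces A, φ.Nonempty := by
    intro φ hφ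
    obtain ⟨a, _, rfl⟩ := mem_cfaces.1 hφ
    obtain ⟨v, hv, hva⟩ := NA_attained hne a
    exact ⟨v, mem_face.2 ⟨hv, hva⟩⟩
  have hφnn : ∀ φ ∈ cfaces A, ∀ u ∈ φ, ∀ i, 0 ≤ u i := fun φ hφ u hu =>
    hnn u (cfaces_subset hφ hu)
  symm
  refine Finset.sum_bij (fun φ _ => sh (Pi.single z (N : ℤ)) φ) ?_ ?_ ?_ ?_
  · intro φ hφ
    obtain ⟨h1, h2, h3, h4⟩ := mem_filter.1 hφ
    rw [mem_filter, cfaces_sh hne]
    refine ⟨Finset.mem_image_of_mem _ h1, ?_, (dvd_latDist_sh hc).2 h3⟩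
    rw [dimF_sh, cs_sh (hφne φ h1) (hφnn φ h1) hN',
      Finset.insert_eq_self.2 (Finset.singleton_subset_iff.1 h4), h2]
  · intro φ _ ψ _ h
    exact sh_inj _ h
  · intro ψ hψ
    rw [mem_filter, cfaces_sh hne, Finset.mem_image] at hψ
    obtain ⟨⟨φ, hφ, rfl⟩, h2, h3⟩ := hψ
    refine ⟨φ, ?_, rfl⟩
    rw [dimF_sh, cs_sh (hφne φ hφ) (hφnn φ hφ) hN'] at h2
    have hlt := dimF_lt_cs hTri hφ (hφne φ hφ)
    have hz : z ∈ cs φ := by
      by_contra hz
      rw [Finset.card_insert_of_notMem hz] at h2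
      omega
    rw [Finset.insert_eq_self.2 hz] at h2
    exact mem_filter.2 ⟨hφ, h2, (dvd_latDist_sh hc).1 h3, Finset.singleton_subset_iff.2 hz⟩
  · intro φ _
    rw [dimF_sh, nvol_sh]

/-- Nonnegativity of the exponent of a chart, for the eigenvalues of order dividing `N`. -/
theorem posW (hNF : NewtonFan) (hNV : NvolSum) (hBox : BoxCount) (hS : SpanT) (hSC : StarCoverT)
    (hFS : FaceSumMult) (hLT : LinkTri) (hLS : LinkSum)
    {z : Fin n} {N : ℕ} {A : Finset (Fin n → ℤ)} (hC : Chart z N A) (hne : A.Nonempty) {m : ℕ}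
    (hm0 : m ≠ 0) (hm1 : m ≠ 1) (hmN : m ∣ N)
    (hE : (projK z A).Nonempty → (∀ v ∈ projK z A, ∀ i, 0 ≤ v i) →
      (0 : Fin n → ℤ) ∉ projK z A → EV (projK z A) m = 0) :
    0 ≤ (-1) ^ (n - 1) * EV A m := by
  classical
  set B := sh (-(Pi.single z (N : ℤ))) A with hB
  have hBA : sh (Pi.single z (N : ℤ)) B = A := by
    ext v
    rw [mem_sh]
    constructor
    · rintro ⟨u, hu, rfl⟩
      obtain ⟨w, hw, rfl⟩ := mem_sh.1 hu
      rwa [neg_add_cancel_right]
    · intro hv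
      exact ⟨v + -(Pi.single z (N : ℤ)), mem_sh.2 ⟨v, hv, rfl⟩, neg_add_cancel_right _ _⟩
  have hBmem : ∀ v, v ∈ B ↔ v + Pi.single z (N : ℤ) ∈ A := by
    intro v
    constructor
    · intro hv
      rw [← hBA]
      exact mem_sh.2 ⟨v, hv, rfl⟩
    · intro hv
      exact mem_sh.2 ⟨_, hv, by rw [add_neg_cancel_right]⟩
  have hBne : B.Nonempty := sh_nonempty.2 hne
  have hBnn : ∀ v ∈ B, ∀ i, 0 ≤ v i := by
    intro v hv i
    obtain ⟨h1, h2⟩ := hC.2.1 _ ((hBmem v).1 hv)
    by_cases hi : i = z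
    · subst hi
      simp only [Pi.add_apply, Pi.single_eq_same] at h1
      omega
    · have := h2 i
      simpa [Pi.single_eq_of_ne hi] using this
  have hB0 : (0 : Fin n → ℤ) ∉ B := by
    intro h
    have := (hBmem 0).1 h
    rw [zero_add] at this
    exact hC.2.2.1 this
  have hproj : projK z B = projK z A := by
    rw [← hBA]
    unfold projK sh
    rw [Finset.image_image]
    refine Finset.image_congr fun v _ => ?_
    funext i
    by_cases hi : i = z
    · subst hi; simp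
    · simp [Function.update_of_ne hi, Pi.single_eq_of_ne hi]
  obtain ⟨Φ, Z, hTri, hcoh⟩ := hNF n _ hBne hBnn hB0
  -- positivity of `ψ` on the directions different from `z`
  have hψ : ∀ F ∈ Φ.mx, ∀ i, i ≠ z → 0 < psi Z F (Pi.single i 1) := by
    intro F hF i hi
    obtain ⟨a, ha, hv⟩ := hC.2.2.2 i hi
    have hvB : (Pi.single i a : Fin n → ℤ) ∈ B := by
      rw [hBmem, add_comm]; exact hv
    have h1 := psi_ge_one hTri hF hvB
    rw [psi_dot hTri hF, Finset.sum_eq_single i] at h1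
    · rw [Pi.single_eq_same] at h1
      refine lt_of_le_of_ne (psi_nonneg hTri hF i) ?_
      intro h
      rw [← h, mul_zero] at h1
      norm_num at h1
    · intro j _ hj
      rw [Pi.single_eq_of_ne hj]
      simp
    · intro h; exact absurd (Finset.mem_univ _) h
  have honly : ∀ τ ∈ Φ.faces, ∀ u ∈ τ, u ∈ Z → u = Pi.single z 1 := by
    intro τ hτ u hu huZ
    obtain ⟨k, rfl⟩ := hTri.2.2.2.2.2.1.2.1 u huZ
    by_cases hk : k = z
    · rw [hk]
    · exfalso
      obtain ⟨F, hF, hsF⟩ := isFace_of_mem hτ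
      have h1 := hψ F hF k hk
      rw [psi_single_of_mem hF (hsF hu) huZ] at h1
      exact lt_irrefl _ h1
  have hpos := multK_nonneg hBox hS hSC Φ hcoh {z} Z m hm0 hm1
  have hmult : Φ.multK {z} Z ∅ m = (-1) ^ (n - 1) * EV A m := by
    rw [← hBA, EV_shift hNF hC.1 hBne hBnn hB0 hmN, ← origin_partK hNV {z} hTri m]
    unfold Fan.multK
    rw [← Finset.sum_filter_add_sum_filter_not _ (fun τ => Disjoint τ Z)]
    have h2 : ∑ τ ∈ (Φ.faces.filter (fun τ => ∅ ⊆ τ ∧ ¬ τ ⊆ Z ∧ τ.card = (cs τ).card ∧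
        m ∣ latDistZ Z τ ∧ {z} ⊆ cs τ)).filter (fun τ => ¬ Disjoint τ Z),
        (-1) ^ (n - τ.card) * (volZ Z τ : ℤ) = 0 := by
      by_cases hz : (Pi.single z 1 : Fin n → ℤ) ∈ Z
      · by_cases hface : Φ.IsFace {(Pi.single z 1 : Fin n → ℤ)}
        · have hp : ∀ F ∈ Φ.mx, (Pi.single z 1 : Fin n → ℤ) ∈ F → ∀ i, i ≠ z →
              0 < psi Z F (Pi.single i 1) := fun F hF _ i hi => hψ F hF i hi
          obtain ⟨hinj, Ψ, hTriΨ, hmx⟩ := hLT n B Z Φ z hTri hz hface hp
          have h3 := hLS n B Z Φ Ψ z hTri hz hface hp hinj hTriΨ hmx m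
          rw [← hFS n _ _ Ψ hTriΨ m] at h3
          have h4 : EV (projK z B) m = 0 := by
            have h5 := hTriΨ.1
            have h6 := hTriΨ.2.1
            have h7 := hTriΨ.2.2.1
            rw [hproj] at h5 h6 h7 ⊢
            exact hE h5 h6 h7
          unfold EV at h4
          rw [h4, mul_zero] at h3
          rw [← h3]
          refine Finset.sum_congr ?_ fun _ _ => rfl
          ext τ
          simp only [mem_filter]
          constructor
          · rintro ⟨⟨h1, _, h2, h3, h4, h5⟩, h6⟩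
            rw [Finset.not_disjoint_iff] at h6
            obtain ⟨u, hu, huZ⟩ := h6
            refine ⟨h1, ?_, h2, h3, h4⟩
            rw [← honly τ h1 u hu huZ]
            exact hu
          · rintro ⟨h1, h5, h2, h3, h4⟩
            refine ⟨⟨h1, Finset.empty_subset _, h2, h3, h4, ?_⟩,
              fun hd => Finset.disjoint_left.1 hd h5 hz⟩
            rw [Finset.singleton_subset_iff, mem_cs]
            exact ⟨_, h5, by simp⟩
        · refine Finset.sum_eq_zero fun τ hτ => ?_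
          exfalso
          simp only [mem_filter] at hτ
          obtain ⟨⟨h1, _, h2, h3, h4, h5⟩, h6⟩ := hτ
          rw [Finset.not_disjoint_iff] at h6
          obtain ⟨u, hu, huZ⟩ := h6
          rw [honly τ h1 u hu huZ] at hu
          apply hface
          obtain ⟨F, hF, hs⟩ := isFace_of_mem h1
          exact ⟨F, hF, by simpa using hs hu⟩
      · refine Finset.sum_eq_zero fun τ hτ => ?_
        exfalso
        simp only [mem_filter] at hτ
        obtain ⟨⟨h1, _, h2, h3, h4, h5⟩, h6⟩ := hτ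
        rw [Finset.not_disjoint_iff] at h6
        obtain ⟨u, hu, huZ⟩ := h6
        rw [honly τ h1 u hu huZ] at huZ
        exact hz huZ
    rw [h2, add_zero]
    refine Finset.sum_congr ?_ fun _ _ => rfl
    ext τ
    simp only [mem_filter]
    constructor
    · rintro ⟨⟨h1, _, h2, h3, h4, h5⟩, h6⟩
      exact ⟨h1, h6, h2, h3, h4, h5⟩
    · rintro ⟨h1, h6, h2, h3, h4, h5⟩
      exact ⟨⟨h1, Finset.empty_subset _, h2, h3, h4, h5⟩, h6⟩
  rw [← hmult]
  exact hpos

/-- Nonnegativity of the exponent of a chart, for the other eigenvalues. -/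
theorem posW' (hNF : NewtonFan) (hMN : MultNonneg)
    (hFS : FaceSumMult) (hLT : LinkTri) (hLS : LinkSum)
    {z : Fin n} {N : ℕ} {A : Finset (Fin n → ℤ)} (hC : Chart z N A) (hne : A.Nonempty) {m : ℕ}
    (hm0 : m ≠ 0) (hmN : ¬ m ∣ N)
    (hE : (projK z A).Nonempty → (∀ v ∈ projK z A, ∀ i, 0 ≤ v i) →
      (0 : Fin n → ℤ) ∉ projK z A → EV (projK z A) m = 0) :
    0 ≤ (-1) ^ (n - 1) * EV A m := by
  classical
  have hm1 : m ≠ 1 := fun h => hmN (h ▸ one_dvd _)
  obtain ⟨Φ, Z, hTri, hcoh⟩ := hNF n _ hne hC.nonneg hC.zero_notMem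
  have hpos := hMN n Φ hcoh Z ∅ hTri.2.2.2.2.2.1 (Finset.empty_subset _) m hm0 hm1
  have hmult : Φ.mult Z ∅ m = (-1) ^ (n - 1) * EV A m := by
    rw [← origin_part hFS hTri m]
    unfold Fan.mult
    rw [← Finset.sum_filter_add_sum_filter_not _ (fun τ => Disjoint τ Z)]
    have h2 : ∑ τ ∈ (Φ.faces.filter (fun τ => ∅ ⊆ τ ∧ ¬ τ ⊆ Z ∧ τ.card = (cs τ).card ∧
        m ∣ latDistZ Z τ)).filter (fun τ => ¬ Disjoint τ Z),
        (-1) ^ (n - τ.card) * (volZ Z τ : ℤ) = 0 := by
      by_cases hz : (Pi.single z 1 : Fin n → ℤ) ∈ Z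
      · rw [← axis_partW hFS hLT hLS hC hTri hz m (fun _ => hE)]
        refine Finset.sum_congr ?_ fun _ _ => rfl
        ext τ
        simp only [mem_filter]
        constructor
        · rintro ⟨⟨h1, _, h2, h3, h4⟩, h6⟩
          rw [Finset.not_disjoint_iff] at h6
          obtain ⟨u, hu, huZ⟩ := h6
          refine ⟨h1, ?_, h2, h3, h4⟩
          rw [← only_z hC hTri hmN h1 h2 h3 h4 u hu huZ]
          exact hu
        · rintro ⟨h1, h5, h2, h3, h4⟩
          exact ⟨⟨h1, Finset.empty_subset _, h2, h3, h4⟩,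
            fun hd => Finset.disjoint_left.1 hd h5 hz⟩
      · refine Finset.sum_eq_zero fun τ hτ => ?_
        exfalso
        simp only [mem_filter] at hτ
        obtain ⟨⟨h1, _, h2, h3, h4⟩, h6⟩ := hτ
        rw [Finset.not_disjoint_iff] at h6
        obtain ⟨u, hu, huZ⟩ := h6
        rw [only_z hC hTri hmN h1 h2 h3 h4 u hu huZ] at huZ
        exact hz huZ
    rw [h2, add_zero]
    refine Finset.sum_congr ?_ fun _ _ => rfl
    ext τ
    simp only [mem_filter]
    constructor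
    · rintro ⟨⟨h1, _, h2, h3, h4⟩, h6⟩
      exact ⟨h1, h6, h2, h3, h4⟩
    · rintro ⟨h1, h6, h2, h3, h4⟩
      exact ⟨⟨h1, Finset.empty_subset _, h2, h3, h4⟩, h6⟩
  rw [← hmult]
  exact hpos

end LocW

end Mono
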